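import Pool.Agent.Helper58.Cube.Density

/-! The cone decomposition inequality and lower bounds for the facets. -/

namespace Helper58.Cube

open MeasureTheory Set
open scoped ENNReal Pointwise

variable {m : ℕ}

theorem G_mono' (v : Fin m → ℝ) (b x y : ℝ) (h : |x| ≤ |y|) : G v b y ≤ G v b x :=
  (ENNReal.toReal_le_toReal (G_ne_top _ _ _) (G_ne_top _ _ _)).1 (G_mono v b x y h)

theorem G_abs (v : Fin m → ℝ) (b x : ℝ) : G v b |x| = G v b x :=
  le_antisymm (G_mono' _ _ _ _ (by simp)) (G_mono' _ _ _ _ (by simp))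

theorem half (v : Fin m → ℝ) {a c : ℝ} (h : |c| ≤ a) : G v a 0 ≤ 2 * G v a c := by
  rw [← G_abs v a c]
  set c' := |c| with hc'
  have hc0 : 0 ≤ c' := abs_nonneg c
  have hsub : slab v a 0 ⊆ slab v a c' ∪ -(slab v a c') := by
    rintro z ⟨h1, h2⟩
    rw [zero_add, abs_le] at h2
    rcases le_total (v ⬝ᵥ z) 0 with h3 | h3
    · left
      refine ⟨h1, ?_⟩
      rw [abs_le]
      constructor <;> linarith
    · right
      rw [Set.mem_neg]
      refine ⟨by simpa using h1, ?_⟩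
      rw [dotProduct_neg, abs_le]
      constructor <;> linarith
  calc G v a 0 ≤ volume (slab v a c' ∪ -(slab v a c')) := measure_mono hsub
    _ ≤ volume (slab v a c') + volume (-(slab v a c')) := measure_union_le _ _
    _ = 2 * G v a c' := by rw [Measure.measure_neg, G_eq]; ring

theorem quarter (i : Fin (m + 1)) (w : Fin (m + 1) → ℝ) {a : ℝ} (h : |w i| ≤ a) :
    G w a 0 ≤ 4 * G (del i w) a (w i) := by
  rw [G_rec i]
  calc ∫⁻ t in Icc (-1 : ℝ) 1, G (del i w) a (0 + w i * t)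
      ≤ ∫⁻ t in Icc (-1 : ℝ) 1, G (del i w) a 0 := by
        apply lintegral_mono
        intro t
        exact G_mono' _ _ _ _ (by rw [abs_zero]; exact abs_nonneg _)
    _ = 2 * G (del i w) a 0 := by
        rw [setLIntegral_const, Real.volume_Icc]
        norm_num [mul_comm]
    _ ≤ 2 * (2 * G (del i w) a (w i)) := by
        gcongr
        exact half _ h
    _ = 4 * G (del i w) a (w i) := by rw [← mul_assoc]; norm_num

theorem scale (v : Fin m → ℝ) (b c : ℝ) {t : ℝ} (ht : t ≠ 0) :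
    volume {z : Fin m → ℝ | ‖z‖ ≤ |t| ∧ |t * c + v ⬝ᵥ z| ≤ |t| * b} =
      ENNReal.ofReal (|t| ^ m) * G v b c := by
  have : {z : Fin m → ℝ | ‖z‖ ≤ |t| ∧ |t * c + v ⬝ᵥ z| ≤ |t| * b} = t • slab v b c := by
    ext z
    rw [Set.mem_smul_set_iff_inv_smul_mem₀ ht]
    simp only [slab, Set.mem_ofPred_eq, Metric.mem_closedBall, dist_zero_right, norm_smul,
      norm_inv, Real.norm_eq_abs, dotProduct_smul, smul_eq_mul]
    have ht' : 0 < |t| := abs_pos.2 ht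
    have e1 : |t|⁻¹ * ‖z‖ ≤ 1 ↔ ‖z‖ ≤ |t| := by
      rw [inv_mul_le_iff₀ ht', mul_one]
    have e2 : |c + t⁻¹ * v ⬝ᵥ z| ≤ b ↔ |t * c + v ⬝ᵥ z| ≤ |t| * b := by
      rw [show t * c + v ⬝ᵥ z = t * (c + t⁻¹ * v ⬝ᵥ z) by field_simp, abs_mul,
        mul_le_mul_iff_right₀ ht']
    rw [e1, e2]
  rw [this, Measure.addHaar_smul]
  simp [abs_pow, G_eq]

theorem scale' (v : Fin m → ℝ) (b c : ℝ) {t : ℝ} (ht : t ≠ 0) :
    volume {z : Fin m → ℝ | ‖z‖ ≤ |t| ∧ |t * c - v ⬝ᵥ z| ≤ |t| * b} =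
      ENNReal.ofReal (|t| ^ m) * G v b c := by
  rw [← scale v b c ht, ← Measure.measure_neg]
  congr 1
  ext z
  simp only [Set.mem_neg, Set.mem_ofPred_eq, norm_neg, dotProduct_neg, sub_neg_eq_add]

theorem lintegral_pow_abs {a : ℝ} (ha : 0 < a) (m : ℕ) :
    ∫⁻ t in Icc (-a) a, ENNReal.ofReal (|t / a| ^ m) = ENNReal.ofReal (2 * a / (m + 1)) := by
  have hc : Continuous (fun t : ℝ => |t / a| ^ m) := by fun_prop
  rw [← ofReal_integral_eq_lintegral_ofReal (hc.integrableOn_Icc)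
    (Filter.Eventually.of_forall fun t => by positivity)]
  congr 1
  rw [integral_Icc_eq_integral_Ioc, ← intervalIntegral.integral_of_le (by linarith),
    ← intervalIntegral.integral_add_adjacent_intervals (b := 0) (hc.intervalIntegrable _ _)
      (hc.intervalIntegrable _ _)]
  have h1 : ∫ t in (-a)..0, |t / a| ^ m = ∫ t in (0 : ℝ)..a, |t / a| ^ m := by
    have := intervalIntegral.integral_comp_neg (a := (0 : ℝ)) (b := a) (fun t => |t / a| ^ m)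
    rw [neg_zero] at this
    rw [← this]
    congr 1
    ext t
    rw [neg_div, abs_neg]
  have h2 : ∫ t in (0 : ℝ)..a, |t / a| ^ m = a / (m + 1) := by
    have : ∫ t in (0 : ℝ)..a, |t / a| ^ m = ∫ t in (0 : ℝ)..a, (t / a) ^ m := by
      apply intervalIntegral.integral_congr
      intro t ht
      rw [uIcc_of_le ha.le] at ht
      simp only
      rw [abs_of_nonneg (div_nonneg ht.1 ha.le)]
    rw [this, intervalIntegral.integral_comp_div (fun t => t ^ m) ha.ne', integral_pow,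
      zero_div, div_self ha.ne']
    simp only [smul_eq_mul, one_pow, ne_eq, Nat.add_eq_zero_iff, one_ne_zero, and_false,
      not_false_eq_true, zero_pow, sub_zero]
    ring
  rw [h1, h2]; ring

theorem lintegral_change (l : Fin (m + 1)) (w : Fin (m + 1) → ℝ) (hl : w l ≠ 0)
    {Φ : (Fin (m + 1) → ℝ) → ℝ≥0∞} (hΦ : Measurable Φ) :
    ∫⁻ y, Φ y = ENNReal.ofReal |(w l)⁻¹| *
      ∫⁻ τ : ℝ, ∫⁻ z : Fin m → ℝ, Φ (ins l ((τ - del l w ⬝ᵥ z) / w l) z) := by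
  have hm : Measurable (Function.uncurry fun (z : Fin m → ℝ) (τ : ℝ) =>
      Φ (ins l ((τ - del l w ⬝ᵥ z) / w l) z)) := by
    have h1 : Measurable (fun x : (Fin m → ℝ) × ℝ => ((x.2 - del l w ⬝ᵥ x.1) / w l, x.1)) := by
      apply Measurable.prodMk
      · apply Measurable.div_const
        exact measurable_snd.sub ((continuous_dot _).measurable.comp measurable_fst)
      · exact measurable_fst
    exact hΦ.comp ((measurable_ins l).comp h1)
  rw [lintegral_ins l hΦ]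
  have h1 : ∀ z : Fin m → ℝ, ∫⁻ t : ℝ, Φ (ins l t z) = ENNReal.ofReal |(w l)⁻¹| *
      ∫⁻ τ : ℝ, Φ (ins l ((τ - del l w ⬝ᵥ z) / w l) z) := by
    intro z
    have hm1 : Measurable (fun τ : ℝ => Φ (ins l ((τ - del l w ⬝ᵥ z) / w l) z)) :=
      hm.comp (measurable_const.prodMk measurable_id)
    rw [← lintegral_affine hl (del l w ⬝ᵥ z) hm1]
    congr 1
    ext t
    congr 2
    field_simp
    ring
  simp_rw [h1]
  rw [lintegral_const_mul _ hm.lintegral_prod_right, lintegral_lintegral_swap hm.aemeasurable]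

/-- Volume of the cone over the facets `y_i = ±1`. -/
theorem cone_one (i : Fin (m + 1)) (w : Fin (m + 1) → ℝ) {a : ℝ} :
    volume {y : Fin (m + 1) → ℝ | y i ≠ 0 ∧ |y i| ≤ 1 ∧ ‖y‖ ≤ |y i| ∧ |w ⬝ᵥ y| ≤ |y i| * a} =
      ENNReal.ofReal (2 / (m + 1)) * G (del i w) a (w i) := by
  have hS : MeasurableSet {y : Fin (m + 1) → ℝ | y i ≠ 0 ∧ |y i| ≤ 1 ∧ ‖y‖ ≤ |y i| ∧
      |w ⬝ᵥ y| ≤ |y i| * a} := by
    have hd := continuous_dot w
    have a1 : IsOpen {y : Fin (m + 1) → ℝ | y i ≠ 0} := isOpen_ne_fun (by fun_prop) (by fun_prop)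
    have a2 : IsClosed {y : Fin (m + 1) → ℝ | |y i| ≤ 1} := isClosed_le (by fun_prop) (by fun_prop)
    have a3 : IsClosed {y : Fin (m + 1) → ℝ | ‖y‖ ≤ |y i|} := isClosed_le (by fun_prop) (by fun_prop)
    have a4 : IsClosed {y : Fin (m + 1) → ℝ | |w ⬝ᵥ y| ≤ |y i| * a} :=
      isClosed_le (by fun_prop) (by fun_prop)
    exact a1.measurableSet.inter (a2.measurableSet.inter (a3.measurableSet.inter a4.measurableSet))
  rw [volume_eq_lintegral i hS]
  have h0 : ∀ᵐ t : ℝ, volume {z : Fin m → ℝ | ins i t z ∈ {y : Fin (m + 1) → ℝ | y i ≠ 0 ∧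
      |y i| ≤ 1 ∧ ‖y‖ ≤ |y i| ∧ |w ⬝ᵥ y| ≤ |y i| * a}} =
      (Icc (-1 : ℝ) 1).indicator (fun t => ENNReal.ofReal (|t / 1| ^ m) * G (del i w) a (w i)) t := by
    have : ∀ᵐ t : ℝ, t ≠ 0 := by
      rw [ae_iff]; simp
    filter_upwards [this] with t ht
    by_cases h : t ∈ Icc (-1 : ℝ) 1
    · rw [indicator_of_mem h, div_one, ← scale _ _ _ ht]
      congr 1
      ext z
      simp only [Set.mem_ofPred_eq, ins_same, norm_ins_le i t z (abs_nonneg t), dot_ins]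
      rw [mul_comm (w i) t]
      constructor
      · rintro ⟨_, _, ⟨_, h1⟩, h2⟩; exact ⟨h1, h2⟩
      · rintro ⟨h1, h2⟩; exact ⟨ht, abs_le.2 h, ⟨le_rfl, h1⟩, h2⟩
    · rw [indicator_of_notMem h]
      convert measure_empty (μ := (volume : Measure (Fin m → ℝ)))
      ext z
      simp only [Set.mem_ofPred_eq, ins_same, mem_empty_iff_false, iff_false]
      rintro ⟨_, h1, _⟩
      exact h (abs_le.1 h1)
  rw [lintegral_congr_ae h0, lintegral_indicator measurableSet_Icc, lintegral_mul_const _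
    (by fun_prop), lintegral_pow_abs one_pos]
  simp

/-- Volume of the cone over the facets `w·y = ±a`. -/
theorem cone_two (l : Fin (m + 1)) (w : Fin (m + 1) → ℝ) (hl : w l ≠ 0) {a : ℝ} (ha : 0 < a) :
    volume {y : Fin (m + 1) → ℝ | w ⬝ᵥ y ≠ 0 ∧ |w ⬝ᵥ y| ≤ a ∧ ‖y‖ ≤ |(w ⬝ᵥ y) / a|} =
      ENNReal.ofReal |(w l)⁻¹| * (ENNReal.ofReal (2 * a / (m + 1)) * G (del l w) |w l| a) := by
  have hS : MeasurableSet {y : Fin (m + 1) → ℝ | w ⬝ᵥ y ≠ 0 ∧ |w ⬝ᵥ y| ≤ a ∧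
      ‖y‖ ≤ |(w ⬝ᵥ y) / a|} := by
    have hd := continuous_dot w
    have a1 : IsOpen {y : Fin (m + 1) → ℝ | w ⬝ᵥ y ≠ 0} :=
      isOpen_ne_fun (by fun_prop) (by fun_prop)
    have a2 : IsClosed {y : Fin (m + 1) → ℝ | |w ⬝ᵥ y| ≤ a} :=
      isClosed_le (by fun_prop) (by fun_prop)
    have a3 : IsClosed {y : Fin (m + 1) → ℝ | ‖y‖ ≤ |(w ⬝ᵥ y) / a|} :=
      isClosed_le (by fun_prop) (by fun_prop)
    exact a1.measurableSet.inter (a2.measurableSet.inter a3.measurableSet)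
  rw [← lintegral_indicator_one hS, lintegral_change l w hl (measurable_one.indicator hS)]
  congr 1
  have h0 : ∀ᵐ τ : ℝ, ∫⁻ z : Fin m → ℝ, ({y : Fin (m + 1) → ℝ | w ⬝ᵥ y ≠ 0 ∧ |w ⬝ᵥ y| ≤ a ∧
      ‖y‖ ≤ |(w ⬝ᵥ y) / a|}).indicator (1 : (Fin (m + 1) → ℝ) → ℝ≥0∞)
        (ins l ((τ - del l w ⬝ᵥ z) / w l) z) =
      (Icc (-a) a).indicator (fun t => ENNReal.ofReal (|t / a| ^ m) * G (del l w) |w l| a) τ := by
    have : ∀ᵐ t : ℝ, t ≠ 0 := by
      rw [ae_iff]; simp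
    filter_upwards [this] with τ hτ
    have hdot : ∀ z : Fin m → ℝ, w ⬝ᵥ ins l ((τ - del l w ⬝ᵥ z) / w l) z = τ := by
      intro z; rw [dot_ins]; field_simp; ring
    by_cases h : τ ∈ Icc (-a) a
    · rw [indicator_of_mem h, ← scale' _ _ _ (div_ne_zero hτ ha.ne')]
      have hS2 : MeasurableSet {z : Fin m → ℝ | ‖z‖ ≤ |τ / a| ∧
          |τ / a * a - del l w ⬝ᵥ z| ≤ |τ / a| * |w l|} := by
        have hd := continuous_dot (del l w)
        have a1 : IsClosed {z : Fin m → ℝ | ‖z‖ ≤ |τ / a|} := isClosed_le (by fun_prop) (by fun_prop)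
        have a2 : IsClosed {z : Fin m → ℝ | |τ / a * a - del l w ⬝ᵥ z| ≤ |τ / a| * |w l|} :=
          isClosed_le (by fun_prop) (by fun_prop)
        exact a1.measurableSet.inter a2.measurableSet
      rw [← lintegral_indicator_one hS2]
      congr 1
      ext z
      have hiff : ins l ((τ - del l w ⬝ᵥ z) / w l) z ∈ {y : Fin (m + 1) → ℝ | w ⬝ᵥ y ≠ 0 ∧
          |w ⬝ᵥ y| ≤ a ∧ ‖y‖ ≤ |(w ⬝ᵥ y) / a|} ↔ z ∈ {z : Fin m → ℝ | ‖z‖ ≤ |τ / a| ∧
          |τ / a * a - del l w ⬝ᵥ z| ≤ |τ / a| * |w l|} := by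
        simp only [Set.mem_ofPred_eq, hdot, norm_ins_le l _ z (abs_nonneg (τ / a))]
        rw [div_mul_cancel₀ _ ha.ne', abs_div (τ - del l w ⬝ᵥ z), div_le_iff₀ (abs_pos.2 hl)]
        constructor
        · rintro ⟨_, _, h1, h2⟩; exact ⟨h2, h1⟩
        · rintro ⟨h2, h1⟩; exact ⟨hτ, abs_le.2 h, h1, h2⟩
      by_cases hz : z ∈ {z : Fin m → ℝ | ‖z‖ ≤ |τ / a| ∧
          |τ / a * a - del l w ⬝ᵥ z| ≤ |τ / a| * |w l|}
      · rw [indicator_of_mem hz, indicator_of_mem (hiff.2 hz)]; rfl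
      · rw [indicator_of_notMem hz, indicator_of_notMem (fun h => hz (hiff.1 h))]
    · rw [indicator_of_notMem h]
      rw [lintegral_eq_zero_iff' ?_]
      · refine Filter.Eventually.of_forall fun z => ?_
        apply indicator_of_notMem
        simp only [Set.mem_ofPred_eq, hdot]
        rintro ⟨_, h1, _⟩
        exact h (abs_le.1 h1)
      · have : (fun z : Fin m → ℝ => ({y : Fin (m + 1) → ℝ | w ⬝ᵥ y ≠ 0 ∧ |w ⬝ᵥ y| ≤ a ∧
            ‖y‖ ≤ |(w ⬝ᵥ y) / a|}).indicator (1 : (Fin (m + 1) → ℝ) → ℝ≥0∞)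
            (ins l ((τ - del l w ⬝ᵥ z) / w l) z)) = fun _ => 0 := by
          ext z
          apply indicator_of_notMem
          simp only [Set.mem_ofPred_eq, hdot]
          rintro ⟨_, h1, _⟩
          exact h (abs_le.1 h1)
        rw [this]
        exact aemeasurable_const
  rw [lintegral_congr_ae h0, lintegral_indicator measurableSet_Icc, lintegral_mul_const _
    (by fun_prop), lintegral_pow_abs ha]

/-- The cone decomposition inequality. -/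
theorem cone_ineq (l : Fin (m + 1)) (w : Fin (m + 1) → ℝ) (hl : w l ≠ 0) {a : ℝ} (ha : 0 < a) :
    G w a 0 ≤ (∑ i, ENNReal.ofReal (2 / (m + 1)) * G (del i w) a (w i)) +
      ENNReal.ofReal |(w l)⁻¹| * (ENNReal.ofReal (2 * a / (m + 1)) * G (del l w) |w l| a) := by
  have hsub : slab w a 0 ⊆ ({0} ∪ ⋃ i, {y : Fin (m + 1) → ℝ | y i ≠ 0 ∧ |y i| ≤ 1 ∧
      ‖y‖ ≤ |y i| ∧ |w ⬝ᵥ y| ≤ |y i| * a}) ∪
      {y : Fin (m + 1) → ℝ | w ⬝ᵥ y ≠ 0 ∧ |w ⬝ᵥ y| ≤ a ∧ ‖y‖ ≤ |(w ⬝ᵥ y) / a|} := by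
    rintro y ⟨h1, h2⟩
    rw [zero_add] at h2
    rw [Metric.mem_closedBall, dist_zero_right] at h1
    rcases eq_or_ne y 0 with rfl | hy
    · left; left; rfl
    obtain ⟨i, hi⟩ := Finite.exists_max (fun i => ‖y i‖)
    have hyi : ‖y‖ ≤ |y i| := (pi_norm_le_iff_of_nonneg (abs_nonneg _)).2 hi
    have hyi0 : 0 < |y i| := lt_of_lt_of_le (norm_pos_iff.2 hy) hyi
    rcases le_or_gt |w ⬝ᵥ y| (|y i| * a) with h3 | h3
    · left; right
      rw [mem_iUnion]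
      exact ⟨i, abs_pos.1 hyi0, (norm_le_pi_norm y i).trans h1, hyi, h3⟩
    · right
      refine ⟨?_, h2, ?_⟩
      · intro h4
        rw [h4, abs_zero] at h3
        nlinarith
      · rw [abs_div, abs_of_pos ha, le_div_iff₀ ha]
        nlinarith
  calc G w a 0 ≤ volume (({0} ∪ ⋃ i, {y : Fin (m + 1) → ℝ | y i ≠ 0 ∧ |y i| ≤ 1 ∧
      ‖y‖ ≤ |y i| ∧ |w ⬝ᵥ y| ≤ |y i| * a}) ∪
      {y : Fin (m + 1) → ℝ | w ⬝ᵥ y ≠ 0 ∧ |w ⬝ᵥ y| ≤ a ∧ ‖y‖ ≤ |(w ⬝ᵥ y) / a|}) :=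
        measure_mono hsub
    _ ≤ (volume ({0} : Set (Fin (m + 1) → ℝ)) + volume (⋃ i, {y : Fin (m + 1) → ℝ | y i ≠ 0 ∧
      |y i| ≤ 1 ∧ ‖y‖ ≤ |y i| ∧ |w ⬝ᵥ y| ≤ |y i| * a})) +
      volume {y : Fin (m + 1) → ℝ | w ⬝ᵥ y ≠ 0 ∧ |w ⬝ᵥ y| ≤ a ∧ ‖y‖ ≤ |(w ⬝ᵥ y) / a|} :=
        (measure_union_le _ _).trans (by gcongr; exact measure_union_le _ _)
    _ ≤ (0 + ∑ i, ENNReal.ofReal (2 / (m + 1)) * G (del i w) a (w i)) +
      ENNReal.ofReal |(w l)⁻¹| * (ENNReal.ofReal (2 * a / (m + 1)) * G (del l w) |w l| a) := by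
        gcongr
        · simp
        · refine (measure_iUnion_fintype_le _ _).trans ?_
          apply Finset.sum_le_sum
          intro i _
          rw [cone_one]
        · rw [cone_two l w hl ha]
    _ = _ := by rw [zero_add]

end Helper58.Cube
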