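import Pool.Agent.Helper58.Cube.Defs

/-! The Hausdorff-measure part: facets of a central section of the cube. -/

namespace Helper58.Cube.Geom

open MeasureTheory Set
open scoped ENNReal RealInnerProductSpace

variable {m : ℕ}

/-- The point with coordinate `a` at `k`, `b` at `k.succAbove i` and `z` elsewhere. -/
def pt (k : Fin (m + 2)) (i : Fin (m + 1)) (a b : ℝ) (z : Fin m → ℝ) :
    EuclideanSpace ℝ (Fin (m + 2)) :=
  WithLp.toLp 2 (k.insertNth a (i.insertNth b z))

@[simp] lemma pt_k (k : Fin (m + 2)) (i : Fin (m + 1)) (a b : ℝ) (z : Fin m → ℝ) :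
    pt k i a b z k = a := by simp [pt]

@[simp] lemma pt_i (k : Fin (m + 2)) (i : Fin (m + 1)) (a b : ℝ) (z : Fin m → ℝ) :
    pt k i a b z (k.succAbove i) = b := by simp [pt]

@[simp] lemma pt_j (k : Fin (m + 2)) (i : Fin (m + 1)) (a b : ℝ) (z : Fin m → ℝ) (j : Fin m) :
    pt k i a b z (k.succAbove (i.succAbove j)) = z j := by simp [pt]

lemma forall_pt {P : Fin (m + 2) → Prop} (k : Fin (m + 2)) (i : Fin (m + 1)) :
    (∀ p, P p) ↔ P k ∧ P (k.succAbove i) ∧ ∀ j, P (k.succAbove (i.succAbove j)) := by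
  constructor
  · intro h
    exact ⟨h _, h _, fun j => h _⟩
  · rintro ⟨h1, h2, h3⟩ p
    obtain rfl | ⟨q, rfl⟩ := Fin.eq_self_or_eq_succAbove k p
    · exact h1
    · obtain rfl | ⟨j, rfl⟩ := Fin.eq_self_or_eq_succAbove i q
      · exact h2
      · exact h3 j

lemma ext_pt {x y : EuclideanSpace ℝ (Fin (m + 2))} (k : Fin (m + 2)) (i : Fin (m + 1))
    (h1 : x k = y k) (h2 : x (k.succAbove i) = y (k.succAbove i))
    (h3 : ∀ j, x (k.succAbove (i.succAbove j)) = y (k.succAbove (i.succAbove j))) : x = y := by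
  ext p
  exact (forall_pt (P := fun p => x p = y p) k i).2 ⟨h1, h2, h3⟩ p

/-- The linear part of the parametrisation of a facet. -/
noncomputable def lin (k : Fin (m + 2)) (i : Fin (m + 1)) (α β : Fin m → ℝ) :
    EuclideanSpace ℝ (Fin m) →ₗ[ℝ] EuclideanSpace ℝ (Fin (m + 2)) where
  toFun z := pt k i (α ⬝ᵥ z.ofLp) (β ⬝ᵥ z.ofLp) z.ofLp
  map_add' x y := by
    apply ext_pt k i <;> simp [dotProduct_add]
  map_smul' c x := by
    apply ext_pt k i <;> simp [dotProduct_smul]

lemma inner_pt (k : Fin (m + 2)) (i : Fin (m + 1)) (a b a' b' : ℝ) (z z' : Fin m → ℝ) :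
    ⟪pt k i a b z, pt k i a' b' z'⟫ = a * a' + b * b' + z ⬝ᵥ z' := by
  rw [PiLp.inner_apply, Fin.sum_univ_succAbove _ k, Fin.sum_univ_succAbove _ i]
  simp [dotProduct, mul_comm, add_assoc]

lemma normDet_lin (k : Fin (m + 2)) (i : Fin (m + 1)) (α β : Fin m → ℝ) (h : α = 0 ∨ β = 0) :
    (lin k i α β).normDet = √(1 + α ⬝ᵥ α + β ⬝ᵥ β) := by
  have h0 : (lin k i α β).normDet ^ 2 = 1 + α ⬝ᵥ α + β ⬝ᵥ β := by
    have h1 := (lin k i α β).normDet_sq_eq_det_gram (EuclideanSpace.basisFun (Fin m) ℝ)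
    have h2 : (Matrix.gram ℝ fun x => (lin k i α β) (EuclideanSpace.basisFun (Fin m) ℝ x)) =
        1 + Matrix.replicateCol (Fin 1) (α + β) * Matrix.replicateRow (Fin 1) (α + β) := by
      ext a b
      rw [Matrix.gram_apply]
      have : ⟪(lin k i α β) (EuclideanSpace.basisFun (Fin m) ℝ a),
          (lin k i α β) (EuclideanSpace.basisFun (Fin m) ℝ b)⟫ =
          α a * α b + β a * β b + (if a = b then 1 else 0) := by
        simp only [lin, LinearMap.coe_mk, AddHom.coe_mk, inner_pt]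
        simp [Pi.single_apply, eq_comm]
      rw [this]
      rcases h with h | h <;> subst h <;>
        simp [Matrix.mul_apply, Matrix.one_apply] <;> ring
    rw [h2] at h1
    have h4 := Matrix.det_one_add_replicateCol_mul_replicateRow (ι := Fin 1) (α + β) (α + β)
    have h3 : (lin k i α β).normDet ^ 2 = 1 + (α + β) ⬝ᵥ (α + β) := by
      rw [← h4]
      exact_mod_cast h1
    rw [h3]
    rcases h with h | h <;> subst h <;> simp
  rw [← h0, Real.sqrt_sq (LinearMap.normDet_nonneg _)]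

/-- Measure of an affinely parametrised piece. -/
lemma measure_param (k : Fin (m + 2)) (i : Fin (m + 1)) (a b : ℝ) (α β : Fin m → ℝ)
    (h : α = 0 ∨ β = 0) (Z : Set (Fin m → ℝ)) :
    μHE[m] ((fun z => pt k i (a + α ⬝ᵥ z) (b + β ⬝ᵥ z) z) '' Z) =
      ENNReal.ofReal (√(1 + α ⬝ᵥ α + β ⬝ᵥ β)) * volume Z := by
  have h1 : (fun z : Fin m → ℝ => pt k i (a + α ⬝ᵥ z) (b + β ⬝ᵥ z) z) '' Z =
      (fun x => pt k i a b 0 + x) '' (lin k i α β '' (WithLp.ofLp ⁻¹' Z)) := by
    ext x
    constructor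
    · rintro ⟨z, hz, rfl⟩
      refine ⟨_, ⟨WithLp.toLp 2 z, by simpa using hz, rfl⟩, ?_⟩
      apply ext_pt k i <;> simp [lin]
    · rintro ⟨_, ⟨z, hz, rfl⟩, rfl⟩
      refine ⟨z.ofLp, hz, ?_⟩
      apply ext_pt k i <;> simp [lin]
  rw [h1, (isometry_add_left (pt k i a b 0)).euclideanHausdorffMeasure_image]
  have h2 := (lin k i α β).euclideanHausdorffMeasure_image_eq_normDet_mul_volume (WithLp.ofLp ⁻¹' Z)
  rw [finrank_euclideanSpace_fin] at h2
  rw [h2, normDet_lin k i α β h]
  congr 1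
  exact (PiLp.volume_preserving_ofLp (Fin m)).measure_preimage_emb
    (MeasurableEquiv.toLp 2 (Fin m → ℝ)).symm.measurableEmbedding Z


/-! ### The function `G` -/

lemma G_neg (v : Fin m → ℝ) (b τ : ℝ) : G v b (-τ) = G v b τ := by
  unfold G
  rw [← Measure.measure_neg]
  congr 1
  ext z
  simp only [Set.mem_neg, mem_ofPred_eq, mem_closedBall_zero_iff, norm_neg, dotProduct_neg]
  rw [← abs_neg (τ + v ⬝ᵥ z), show -(τ + v ⬝ᵥ z) = -τ + -(v ⬝ᵥ z) by ring]

lemma volume_sphere : volume (Metric.sphere (0 : Fin m → ℝ) 1) = 0 :=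
  Measure.addHaar_sphere_of_ne_zero _ _ one_ne_zero

lemma G_eq_open (v : Fin m → ℝ) (b τ : ℝ) :
    G v b τ = volume {z : Fin m → ℝ | (∀ j, |z j| < 1) ∧ |τ + v ⬝ᵥ z| ≤ b} := by
  unfold G
  apply le_antisymm
  · calc volume {z : Fin m → ℝ | z ∈ Metric.closedBall 0 1 ∧ |τ + v ⬝ᵥ z| ≤ b}
        ≤ volume ({z : Fin m → ℝ | (∀ j, |z j| < 1) ∧ |τ + v ⬝ᵥ z| ≤ b} ∪
          Metric.sphere (0 : Fin m → ℝ) 1) := by
          apply measure_mono
          rintro z ⟨hz1, hz2⟩
          rw [mem_closedBall_zero_iff] at hz1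
          rcases hz1.lt_or_eq with h | h
          · left
            refine ⟨fun j => ?_, hz2⟩
            have := norm_le_pi_norm z j
            rw [Real.norm_eq_abs] at this
            linarith
          · right
            simpa using h
      _ ≤ _ := by
          refine (measure_union_le _ _).trans ?_
          rw [volume_sphere, add_zero]
  · apply measure_mono
    rintro z ⟨hz1, hz2⟩
    refine ⟨?_, hz2⟩
    rw [mem_closedBall_zero_iff]
    rw [pi_norm_le_iff_of_nonneg zero_le_one]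
    intro j
    exact (hz1 j).le

lemma volume_hyperplane (v : Fin m → ℝ) (hv : ∃ j, v j ≠ 0) (c : ℝ) :
    volume {z : Fin m → ℝ | v ⬝ᵥ z = c} = 0 := by
  obtain ⟨j, hj⟩ := hv
  by_cases hne : {z : Fin m → ℝ | v ⬝ᵥ z = c}.Nonempty
  · obtain ⟨z0, hz0⟩ := hne
    have hz0' : v ⬝ᵥ z0 = c := hz0
    let φ : (Fin m → ℝ) →ₗ[ℝ] ℝ := dotProductBilin ℝ ℝ v
    have h1 : {z : Fin m → ℝ | v ⬝ᵥ z = c} = (fun z => (-z0) + z) ⁻¹' (LinearMap.ker φ : Set _) := by
      ext z
      have : φ (-z0 + z) = v ⬝ᵥ (-z0 + z) := rfl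
      simp only [mem_preimage, SetLike.mem_coe, LinearMap.mem_ker, this, dotProduct_add,
        dotProduct_neg, hz0']
      constructor
      · intro h
        have : v ⬝ᵥ z = c := h
        linarith
      · intro h
        show v ⬝ᵥ z = c
        linarith
    rw [h1, measure_preimage_add]
    apply Measure.addHaar_submodule
    intro htop
    have h2 : Pi.single j 1 ∈ LinearMap.ker φ := by rw [htop]; trivial
    have h3 : φ (Pi.single j 1) = v ⬝ᵥ (Pi.single j 1) := rfl
    rw [LinearMap.mem_ker, h3] at h2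
    simp at h2
    exact hj h2
  · rw [Set.not_nonempty_iff_eq_empty.1 hne, measure_empty]

lemma G_eq_open' (v : Fin m → ℝ) (hv : ∃ j, v j ≠ 0) (b τ : ℝ) :
    G v b τ = volume {z : Fin m → ℝ | (∀ j, |z j| < 1) ∧ |τ + v ⬝ᵥ z| < b} := by
  rw [G_eq_open]
  apply le_antisymm
  · calc volume {z : Fin m → ℝ | (∀ j, |z j| < 1) ∧ |τ + v ⬝ᵥ z| ≤ b}
        ≤ volume ({z : Fin m → ℝ | (∀ j, |z j| < 1) ∧ |τ + v ⬝ᵥ z| < b} ∪
          ({z : Fin m → ℝ | v ⬝ᵥ z = b - τ} ∪ {z : Fin m → ℝ | v ⬝ᵥ z = -b - τ})) := by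
          apply measure_mono
          rintro z ⟨hz1, hz2⟩
          rcases hz2.lt_or_eq with h | h
          · left
            exact ⟨hz1, h⟩
          · right
            rcases abs_choice (τ + v ⬝ᵥ z) with h' | h'
            · left
              simp only [mem_ofPred_eq]
              linarith
            · right
              simp only [mem_ofPred_eq]
              linarith
      _ ≤ _ := by
          refine (measure_union_le _ _).trans ?_
          refine (add_le_add le_rfl (measure_union_le _ _)).trans ?_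
          rw [volume_hyperplane v hv, volume_hyperplane v hv, add_zero, add_zero]
  · apply measure_mono
    rintro z ⟨hz1, hz2⟩
    exact ⟨hz1, hz2.le⟩

/-! ### The frontier -/

lemma perimeter_eq (u : EuclideanSpace ℝ (Fin (m + 2))) :
    perimeter u = μHE[m] (((↑) : ((ℝ ∙ u)ᗮ : Submodule ℝ (EuclideanSpace ℝ (Fin (m + 2)))) →
      EuclideanSpace ℝ (Fin (m + 2))) '' frontier (centralSection u)) := by
  rw [isometry_subtype_coe.euclideanHausdorffMeasure_image]
  rfl

lemma isClosed_centralSection {n : ℕ} (u : EuclideanSpace ℝ (Fin n)) :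
    IsClosed (centralSection u) := by
  have : centralSection u = ⋂ i, {x : ((ℝ ∙ u)ᗮ : Submodule ℝ (EuclideanSpace ℝ (Fin n))) |
      |(x : EuclideanSpace ℝ (Fin n)) i| ≤ 1} := by
    ext x
    simp [centralSection]
  rw [this]
  apply isClosed_iInter
  intro i
  apply isClosed_le
  · fun_prop
  · fun_prop

lemma mem_frontier_of {n : ℕ} {u : EuclideanSpace ℝ (Fin n)}
    (x : ((ℝ ∙ u)ᗮ : Submodule ℝ (EuclideanSpace ℝ (Fin n))))
    (h1 : ∀ i, |(x : EuclideanSpace ℝ (Fin n)) i| ≤ 1)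
    (h2 : ∃ i, |(x : EuclideanSpace ℝ (Fin n)) i| = 1) : x ∈ frontier (centralSection u) := by
  rw [(isClosed_centralSection u).frontier_eq]
  refine ⟨h1, fun hx => ?_⟩
  obtain ⟨i, hi⟩ := h2
  have hcont : Filter.Tendsto (fun t : ℝ => t • x) (nhds 1) (nhds ((1 : ℝ) • x)) :=
    (continuous_id.smul continuous_const).tendsto 1
  rw [one_smul] at hcont
  have h3 : ∀ᶠ t in nhds (1 : ℝ), t • x ∈ centralSection u :=
    hcont (mem_interior_iff_mem_nhds.1 hx)
  have h4 : ∀ᶠ t in nhdsWithin (1 : ℝ) (Ioi 1), t • x ∈ centralSection u ∧ t ∈ Ioi (1 : ℝ) :=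
    (h3.filter_mono nhdsWithin_le_nhds).and self_mem_nhdsWithin
  obtain ⟨t, ht1, ht2⟩ := h4.exists
  have h5 := ht1 i
  simp only [SetLike.val_smul, PiLp.smul_apply, smul_eq_mul, abs_mul, hi, mul_one] at h5
  rw [abs_of_pos (lt_trans zero_lt_one ht2)] at h5
  exact absurd ht2 (not_lt.2 h5)

lemma exists_eq_one_of_mem_frontier {n : ℕ} {u : EuclideanSpace ℝ (Fin n)}
    {x : ((ℝ ∙ u)ᗮ : Submodule ℝ (EuclideanSpace ℝ (Fin n)))}
    (hx : x ∈ frontier (centralSection u)) :
    (∀ i, |(x : EuclideanSpace ℝ (Fin n)) i| ≤ 1) ∧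
      ∃ i, |(x : EuclideanSpace ℝ (Fin n)) i| = 1 := by
  rw [(isClosed_centralSection u).frontier_eq] at hx
  refine ⟨hx.1, ?_⟩
  by_contra hcon
  push Not at hcon
  apply hx.2
  have hopen : IsOpen {x : ((ℝ ∙ u)ᗮ : Submodule ℝ (EuclideanSpace ℝ (Fin n))) |
      ∀ i, |(x : EuclideanSpace ℝ (Fin n)) i| < 1} := by
    have : {x : ((ℝ ∙ u)ᗮ : Submodule ℝ (EuclideanSpace ℝ (Fin n))) |
        ∀ i, |(x : EuclideanSpace ℝ (Fin n)) i| < 1} =
        ⋂ i, {x : ((ℝ ∙ u)ᗮ : Submodule ℝ (EuclideanSpace ℝ (Fin n))) |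
          |(x : EuclideanSpace ℝ (Fin n)) i| < 1} := by
      ext x
      simp
    rw [this]
    apply isOpen_iInter_of_finite
    intro i
    apply isOpen_lt
    · fun_prop
    · fun_prop
  rw [mem_interior]
  refine ⟨_, ?_, hopen, fun i => lt_of_le_of_ne (hx.1 i) (hcon i)⟩
  intro y hy i
  exact (hy i).le

lemma sum_le_perimeter {ι : Type*} [Fintype ι] (u : EuclideanSpace ℝ (Fin (m + 2)))
    (S : ι → Set (EuclideanSpace ℝ (Fin (m + 2)))) (hS : ∀ i, MeasurableSet (S i))
    (hd : Pairwise (Function.onFun Disjoint S))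
    (h1 : ∀ i, ∀ x ∈ S i, inner ℝ u x = 0) (h2 : ∀ i, ∀ x ∈ S i, ∀ p, |x p| ≤ 1)
    (h3 : ∀ i, ∀ x ∈ S i, ∃ p, |x p| = 1) :
    ∑ i, μHE[m] (S i) ≤ perimeter u := by
  rw [perimeter_eq]
  have h4 : ∑ i, μHE[m] (S i) = μHE[m] (⋃ i, S i) := by
    rw [measure_iUnion hd hS, tsum_fintype]
  rw [h4]
  apply measure_mono
  intro x hx
  obtain ⟨i, hi⟩ := mem_iUnion.1 hx
  exact ⟨⟨x, Submodule.mem_orthogonal_singleton_iff_inner_right.2 (h1 i x hi)⟩,
    mem_frontier_of _ (h2 i x hi) (h3 i x hi), rfl⟩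

/-! ### Facets -/

lemma inner_eq (u x : EuclideanSpace ℝ (Fin (m + 2))) (k : Fin (m + 2)) (i : Fin (m + 1)) :
    inner ℝ u x = u k * x k + u (k.succAbove i) * x (k.succAbove i) +
      (fun j => u (k.succAbove (i.succAbove j))) ⬝ᵥ (fun j => x (k.succAbove (i.succAbove j))) := by
  rw [PiLp.inner_apply, Fin.sum_univ_succAbove _ k, Fin.sum_univ_succAbove _ i]
  simp [dotProduct, mul_comm, add_assoc]

lemma norm_sq_eq (u : EuclideanSpace ℝ (Fin (m + 2))) (k : Fin (m + 2)) (i : Fin (m + 1)) :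
    ‖u‖ ^ 2 = u k ^ 2 + u (k.succAbove i) ^ 2 +
      (fun j => u (k.succAbove (i.succAbove j))) ⬝ᵥ (fun j => u (k.succAbove (i.succAbove j))) := by
  rw [← real_inner_self_eq_norm_sq, inner_eq u u k i]
  ring

/-- facet `x_{k.succAbove i} = s`, with the coordinate `k` allowed to be `±1` -/
def facetI (u : EuclideanSpace ℝ (Fin (m + 2))) (k : Fin (m + 2)) (i : Fin (m + 1)) (s : ℝ) :
    Set (EuclideanSpace ℝ (Fin (m + 2))) :=
  {x | inner ℝ u x = 0 ∧ x (k.succAbove i) = s ∧ (∀ j, |x (k.succAbove (i.succAbove j))| < 1) ∧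
    |x k| ≤ 1}

/-- facet `x_k = s` with all other coordinates of absolute value less than one -/
def facetK (u : EuclideanSpace ℝ (Fin (m + 2))) (k : Fin (m + 2)) (s : ℝ) :
    Set (EuclideanSpace ℝ (Fin (m + 2))) :=
  {x | inner ℝ u x = 0 ∧ x k = s ∧ ∀ j, |x (k.succAbove j)| < 1}

lemma measurableSet_facetI (u : EuclideanSpace ℝ (Fin (m + 2))) (k : Fin (m + 2))
    (i : Fin (m + 1)) (s : ℝ) : MeasurableSet (facetI u k i s) := by
  have h1 : MeasurableSet {x : EuclideanSpace ℝ (Fin (m + 2)) | inner ℝ u x = 0} :=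
    IsClosed.measurableSet (isClosed_eq (by fun_prop) (by fun_prop))
  have h2 : MeasurableSet {x : EuclideanSpace ℝ (Fin (m + 2)) | x (k.succAbove i) = s} :=
    IsClosed.measurableSet (isClosed_eq (by fun_prop) (by fun_prop))
  have h3 : MeasurableSet {x : EuclideanSpace ℝ (Fin (m + 2)) |
      ∀ j, |x (k.succAbove (i.succAbove j))| < 1} := by
    have : {x : EuclideanSpace ℝ (Fin (m + 2)) | ∀ j, |x (k.succAbove (i.succAbove j))| < 1} =
        ⋂ j, {x : EuclideanSpace ℝ (Fin (m + 2)) | |x (k.succAbove (i.succAbove j))| < 1} := by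
      ext x
      simp
    rw [this]
    refine MeasurableSet.iInter fun j => IsOpen.measurableSet ?_
    exact isOpen_lt (by fun_prop) (by fun_prop)
  have h4 : MeasurableSet {x : EuclideanSpace ℝ (Fin (m + 2)) | |x k| ≤ 1} :=
    IsClosed.measurableSet (isClosed_le (by fun_prop) (by fun_prop))
  exact h1.inter (h2.inter (h3.inter h4))

lemma measurableSet_facetK (u : EuclideanSpace ℝ (Fin (m + 2))) (k : Fin (m + 2))
    (s : ℝ) : MeasurableSet (facetK u k s) := by
  have h1 : MeasurableSet {x : EuclideanSpace ℝ (Fin (m + 2)) | inner ℝ u x = 0} :=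
    IsClosed.measurableSet (isClosed_eq (by fun_prop) (by fun_prop))
  have h2 : MeasurableSet {x : EuclideanSpace ℝ (Fin (m + 2)) | x k = s} :=
    IsClosed.measurableSet (isClosed_eq (by fun_prop) (by fun_prop))
  have h3 : MeasurableSet {x : EuclideanSpace ℝ (Fin (m + 2)) | ∀ j, |x (k.succAbove j)| < 1} := by
    have : {x : EuclideanSpace ℝ (Fin (m + 2)) | ∀ j, |x (k.succAbove j)| < 1} =
        ⋂ j, {x : EuclideanSpace ℝ (Fin (m + 2)) | |x (k.succAbove j)| < 1} := by
      ext x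
      simp
    rw [this]
    refine MeasurableSet.iInter fun j => IsOpen.measurableSet ?_
    exact isOpen_lt (by fun_prop) (by fun_prop)
  exact h1.inter (h2.inter h3)

lemma sqrt_aux {a b c : ℝ} {v : Fin m → ℝ} (ha : a ≠ 0) (h : 1 = a ^ 2 + b ^ 2 + v ⬝ᵥ v)
    (hc : c = b) : √(1 + (-a⁻¹ • v) ⬝ᵥ (-a⁻¹ • v)) = √(1 - c ^ 2) / |a| := by
  subst hc
  rw [← Real.sqrt_sq_eq_abs, ← Real.sqrt_div' _ (sq_nonneg a)]
  congr 1
  simp only [dotProduct_smul, smul_dotProduct, smul_eq_mul]
  field_simp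
  linarith

lemma measure_facetI (u : EuclideanSpace ℝ (Fin (m + 2))) (hu : ‖u‖ = 1) (k : Fin (m + 2))
    (hk : u k ≠ 0) (i : Fin (m + 1)) (s : ℝ) (hs : s = 1 ∨ s = -1) :
    μHE[m] (facetI u k i s) = ENNReal.ofReal (√(1 - u (k.succAbove i) ^ 2) / |u k|) *
      G (fun j => u (k.succAbove (i.succAbove j))) |u k| (u (k.succAbove i)) := by
  set v : Fin m → ℝ := fun j => u (k.succAbove (i.succAbove j)) with hv
  have h1 : facetI u k i s = (fun z => pt k i (-(s * u (k.succAbove i)) / u k +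
      (-(u k)⁻¹ • v) ⬝ᵥ z) (s + (0 : Fin m → ℝ) ⬝ᵥ z) z) ''
      {z | (∀ j, |z j| < 1) ∧ |s * u (k.succAbove i) + v ⬝ᵥ z| ≤ |u k|} := by
    ext x
    constructor
    · rintro ⟨hx1, hx2, hx3, hx4⟩
      rw [inner_eq u x k i] at hx1
      rw [hx2] at hx1
      have hxk : x k = -(s * u (k.succAbove i)) / u k +
          (-(u k)⁻¹ • v) ⬝ᵥ (fun j => x (k.succAbove (i.succAbove j))) := by
        simp only [smul_dotProduct, smul_eq_mul]
        field_simp
        linarith
      refine ⟨fun j => x (k.succAbove (i.succAbove j)), ⟨hx3, ?_⟩, ?_⟩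
      · have : s * u (k.succAbove i) + v ⬝ᵥ (fun j => x (k.succAbove (i.succAbove j))) =
            -(u k * x k) := by linarith
        rw [this, abs_neg, abs_mul]
        nlinarith [abs_nonneg (u k)]
      · apply ext_pt k i
        · simp only [pt_k]
          exact hxk.symm
        · simp [hx2]
        · simp
    · rintro ⟨z, ⟨hz1, hz2⟩, rfl⟩
      have hxk : u k * (-(s * u (k.succAbove i)) / u k + (-(u k)⁻¹ • v) ⬝ᵥ z) =
          -(s * u (k.succAbove i) + v ⬝ᵥ z) := by
        simp only [smul_dotProduct, smul_eq_mul]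
        field_simp
        ring
      refine ⟨?_, by simp, by simpa using hz1, ?_⟩
      · rw [inner_eq _ _ k i]
        simp only [pt_k, pt_i, pt_j, zero_dotProduct, add_zero]
        rw [hxk]
        ring
      · simp only [pt_k]
        have h5 : |u k| * |(-(s * u (k.succAbove i)) / u k + (-(u k)⁻¹ • v) ⬝ᵥ z)| ≤ |u k| := by
          rw [← abs_mul, hxk, abs_neg]
          exact hz2
        have h6 : 0 < |u k| := abs_pos.2 hk
        nlinarith
  rw [h1, measure_param k i _ _ _ _ (Or.inr rfl), ← G_eq_open]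
  congr 1
  · congr 1
    rw [dotProduct_zero, add_zero]
    refine sqrt_aux hk ?_ rfl
    rw [← norm_sq_eq u k i, hu, one_pow]
  · rcases hs with rfl | rfl
    · rw [one_mul]
    · rw [neg_one_mul, G_neg]

lemma measure_facetK (u : EuclideanSpace ℝ (Fin (m + 2))) (hu : ‖u‖ = 1) (k : Fin (m + 2))
    (l : Fin (m + 1)) (hl : u (k.succAbove l) ≠ 0)
    (hl2 : ∃ j, u (k.succAbove (l.succAbove j)) ≠ 0) (s : ℝ) (hs : s = 1 ∨ s = -1) :
    μHE[m] (facetK u k s) = ENNReal.ofReal (√(1 - u k ^ 2) / |u (k.succAbove l)|) *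
      G (fun j => u (k.succAbove (l.succAbove j))) |u (k.succAbove l)| (u k) := by
  set v : Fin m → ℝ := fun j => u (k.succAbove (l.succAbove j)) with hv
  set t := u (k.succAbove l) with ht
  have h1 : facetK u k s = (fun z => pt k l (s + (0 : Fin m → ℝ) ⬝ᵥ z) (-(s * u k) / t +
      (-t⁻¹ • v) ⬝ᵥ z) z) ''
      {z | (∀ j, |z j| < 1) ∧ |s * u k + v ⬝ᵥ z| < |t|} := by
    ext x
    constructor
    · rintro ⟨hx1, hx2, hx3⟩
      rw [inner_eq u x k l] at hx1
      rw [hx2] at hx1
      have hxk : x (k.succAbove l) = -(s * u k) / t +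
          (-t⁻¹ • v) ⬝ᵥ (fun j => x (k.succAbove (l.succAbove j))) := by
        simp only [smul_dotProduct, smul_eq_mul]
        field_simp
        linarith
      refine ⟨fun j => x (k.succAbove (l.succAbove j)), ⟨fun j => hx3 _, ?_⟩, ?_⟩
      · have : s * u k + v ⬝ᵥ (fun j => x (k.succAbove (l.succAbove j))) =
            -(t * x (k.succAbove l)) := by linarith
        rw [this, abs_neg, abs_mul]
        have h6 : 0 < |t| := abs_pos.2 hl
        nlinarith [hx3 l]
      · apply ext_pt k l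
        · simp [hx2]
        · simp only [pt_i]
          exact hxk.symm
        · simp
    · rintro ⟨z, ⟨hz1, hz2⟩, rfl⟩
      have hxk : t * (-(s * u k) / t + (-t⁻¹ • v) ⬝ᵥ z) = -(s * u k + v ⬝ᵥ z) := by
        simp only [smul_dotProduct, smul_eq_mul]
        field_simp
        ring
      refine ⟨?_, by simp, ?_⟩
      · rw [inner_eq _ _ k l]
        simp only [pt_k, pt_i, pt_j, zero_dotProduct, add_zero]
        rw [← ht, hxk]
        ring
      · intro j
        obtain rfl | ⟨j', rfl⟩ := Fin.eq_self_or_eq_succAbove l j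
        · simp only [pt_i]
          have h5 : |t| * |(-(s * u k) / t + (-t⁻¹ • v) ⬝ᵥ z)| < |t| := by
            rw [← abs_mul, hxk, abs_neg]
            exact hz2
          have h6 : 0 < |t| := abs_pos.2 hl
          nlinarith
        · simpa using hz1 j'
  rw [h1, measure_param k l _ _ _ _ (Or.inl rfl), ← G_eq_open' _ hl2]
  congr 1
  · congr 1
    rw [dotProduct_zero, add_zero]
    refine sqrt_aux hl (b := u k) ?_ rfl
    have := norm_sq_eq u k l
    rw [hu, one_pow] at this
    rw [this]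
    ring
  · rcases hs with rfl | rfl
    · rw [one_mul]
    · rw [neg_one_mul, G_neg]

/-! ### The four statements -/

lemma abs_eq_of_sign {s : ℝ} (hs : s = 1 ∨ s = -1) : |s| = 1 := by
  rcases hs with rfl | rfl <;> simp

/-- the sign attached to a Boolean -/
def sgn (b : Bool) : ℝ := if b then 1 else -1

lemma sgn_cases (b : Bool) : sgn b = 1 ∨ sgn b = -1 := by
  cases b <;> simp [sgn]

lemma sgn_inj {a b : Bool} (h : sgn a = sgn b) : a = b := by
  cases a <;> cases b <;> simp [sgn] at h ⊢ <;> linarith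

lemma disjoint_facetI (u : EuclideanSpace ℝ (Fin (m + 2))) (k : Fin (m + 2))
    (i i' : Fin (m + 1)) (b b' : Bool) (h : (i, b) ≠ (i', b')) :
    Disjoint (facetI u k i (sgn b)) (facetI u k i' (sgn b')) := by
  rw [Set.disjoint_left]
  rintro x ⟨-, hx2, hx3, -⟩ ⟨-, hx2', hx3', -⟩
  by_cases hii : i = i'
  · subst hii
    rw [hx2] at hx2'
    exact h (by rw [sgn_inj hx2'])
  · obtain ⟨j, rfl⟩ := Fin.exists_succAbove_eq hii
    have := hx3' j
    rw [hx2, abs_eq_of_sign (sgn_cases b)] at this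
    exact lt_irrefl _ this

lemma disjoint_facetI_facetK (u : EuclideanSpace ℝ (Fin (m + 2))) (k : Fin (m + 2))
    (i : Fin (m + 1)) (b b' : Bool) :
    Disjoint (facetI u k i (sgn b)) (facetK u k (sgn b')) := by
  rw [Set.disjoint_left]
  rintro x ⟨-, hx2, hx3, -⟩ ⟨-, hx2', hx3'⟩
  have := hx3' i
  rw [hx2, abs_eq_of_sign (sgn_cases b)] at this
  exact lt_irrefl _ this

lemma disjoint_facetK (u : EuclideanSpace ℝ (Fin (m + 2))) (k : Fin (m + 2))
    (b b' : Bool) (h : b ≠ b') :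
    Disjoint (facetK u k (sgn b)) (facetK u k (sgn b')) := by
  rw [Set.disjoint_left]
  rintro x ⟨-, hx2, -⟩ ⟨-, hx2', -⟩
  rw [hx2] at hx2'
  exact h (sgn_inj hx2')

/-- (G1) facets other than the ones normal to `e_k` -/
theorem perimeter_ge_one (u : EuclideanSpace ℝ (Fin (m + 2))) (hu : ‖u‖ = 1)
    (k : Fin (m + 2)) (hk : u k ≠ 0) (w : Fin (m + 1) → ℝ) (hw : ∀ j, w j = u (k.succAbove j)) :
    ∑ i, 2 * ENNReal.ofReal (√(1 - w i ^ 2) / |u k|) *
      G (fun j => w (i.succAbove j)) |u k| (w i) ≤ perimeter u := by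
  obtain rfl : w = fun j => u (k.succAbove j) := funext hw
  have h := sum_le_perimeter u (fun p : Fin (m + 1) × Bool => facetI u k p.1 (sgn p.2))
    (fun p => measurableSet_facetI u k p.1 _)
    (fun p q hpq => disjoint_facetI u k p.1 q.1 p.2 q.2 hpq)
    (fun p x hx => hx.1)
    (fun p x hx => (forall_pt k p.1).2 ⟨hx.2.2.2, by
      rw [hx.2.1, abs_eq_of_sign (sgn_cases _)], fun j => (hx.2.2.1 j).le⟩)
    (fun p x hx => ⟨k.succAbove p.1, by rw [hx.2.1, abs_eq_of_sign (sgn_cases _)]⟩)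
  refine le_trans (le_of_eq ?_) h
  rw [Fintype.sum_prod_type]
  refine Finset.sum_congr rfl fun i _ => ?_
  simp only [measure_facetI u hu k hk i _ (sgn_cases _), Fintype.sum_bool]
  ring

/-- (G2) all facets -/
theorem perimeter_ge_two (u : EuclideanSpace ℝ (Fin (m + 2))) (hu : ‖u‖ = 1)
    (k : Fin (m + 2)) (hk : u k ≠ 0) (w : Fin (m + 1) → ℝ) (hw : ∀ j, w j = u (k.succAbove j))
    (l : Fin (m + 1)) (hl : w l ≠ 0) (hl2 : ∃ j, w (l.succAbove j) ≠ 0) :
    ∑ i, 2 * ENNReal.ofReal (√(1 - w i ^ 2) / |u k|) *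
      G (fun j => w (i.succAbove j)) |u k| (w i)
      + 2 * ENNReal.ofReal (√(1 - u k ^ 2) / |w l|) *
        G (fun j => w (l.succAbove j)) |w l| (u k) ≤ perimeter u := by
  obtain rfl : w = fun j => u (k.succAbove j) := funext hw
  have h := sum_le_perimeter u (fun p : (Fin (m + 1) × Bool) ⊕ Bool =>
      Sum.elim (fun p : Fin (m + 1) × Bool => facetI u k p.1 (sgn p.2))
        (fun b : Bool => facetK u k (sgn b)) p)
    (by
      rintro (p | b)
      · exact measurableSet_facetI u k p.1 _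
      · exact measurableSet_facetK u k _)
    (by
      rintro (p | b) (q | b') hpq
      · exact disjoint_facetI u k p.1 q.1 p.2 q.2 (fun h => hpq (by
          rw [show p = q from h]))
      · exact disjoint_facetI_facetK u k _ _ _
      · exact (disjoint_facetI_facetK u k _ _ _).symm
      · exact disjoint_facetK u k _ _ (fun h => hpq (by rw [h])))
    (by
      rintro (p | b) x hx
      · exact hx.1
      · exact hx.1)
    (by
      rintro (p | b) x hx
      · exact (forall_pt k p.1).2 ⟨hx.2.2.2, by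
          rw [hx.2.1, abs_eq_of_sign (sgn_cases _)], fun j => (hx.2.2.1 j).le⟩
      · intro q
        obtain rfl | ⟨j, rfl⟩ := Fin.eq_self_or_eq_succAbove k q
        · rw [hx.2.1, abs_eq_of_sign (sgn_cases _)]
        · exact (hx.2.2 j).le)
    (by
      rintro (p | b) x hx
      · exact ⟨k.succAbove p.1, by rw [hx.2.1, abs_eq_of_sign (sgn_cases _)]⟩
      · exact ⟨k, by rw [hx.2.1, abs_eq_of_sign (sgn_cases _)]⟩)
  refine le_trans (le_of_eq ?_) h
  rw [Fintype.sum_sum_type, Fintype.sum_prod_type]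
  congr 1
  · refine Finset.sum_congr rfl fun i _ => ?_
    simp only [Sum.elim_inl, measure_facetI u hu k hk i _ (sgn_cases _), Fintype.sum_bool]
    ring
  · simp only [Sum.elim_inr, measure_facetK u hu k l hl hl2 _ (sgn_cases _), Fintype.sum_bool]
    ring

/-- (G3) coordinate hyperplanes -/
theorem perimeter_single_le (k : Fin (m + 2)) (c : ℝ) (hc : |c| = 1) :
    perimeter (EuclideanSpace.single k c) ≤ (m + 1) * 2 ^ (m + 1) := by
  rw [perimeter_eq]
  have hc0 : c ≠ 0 := by
    intro h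
    rw [h, abs_zero] at hc
    exact zero_ne_one hc
  have h1 : ((↑) : ((ℝ ∙ (EuclideanSpace.single k c))ᗮ :
      Submodule ℝ (EuclideanSpace ℝ (Fin (m + 2)))) → EuclideanSpace ℝ (Fin (m + 2))) ''
      frontier (centralSection (EuclideanSpace.single k c)) ⊆
      ⋃ p : Fin (m + 1) × Bool, (fun z => pt k p.1 (0 + (0 : Fin m → ℝ) ⬝ᵥ z)
        (sgn p.2 + (0 : Fin m → ℝ) ⬝ᵥ z) z) '' (Metric.closedBall 0 1) := by
    rintro _ ⟨x, hx, rfl⟩
    obtain ⟨hx1, q, hq⟩ := exists_eq_one_of_mem_frontier hx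
    have hx0 : (x : EuclideanSpace ℝ (Fin (m + 2))) k = 0 := by
      have := Submodule.mem_orthogonal_singleton_iff_inner_right.1 x.2
      rw [EuclideanSpace.inner_single_left] at this
      simpa [hc0] using this
    obtain rfl | ⟨i, rfl⟩ := Fin.eq_self_or_eq_succAbove k q
    · rw [hx0, abs_zero] at hq
      exact absurd hq zero_ne_one
    · have hb : ∃ b : Bool, (x : EuclideanSpace ℝ (Fin (m + 2))) (k.succAbove i) = sgn b := by
        rcases eq_or_eq_neg_of_abs_eq hq with h | h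
        · exact ⟨true, by rw [h]; simp [sgn]⟩
        · exact ⟨false, by rw [h]; simp [sgn]⟩
      obtain ⟨b, hb⟩ := hb
      refine mem_iUnion.2 ⟨(i, b), fun j => (x : EuclideanSpace ℝ (Fin (m + 2)))
        (k.succAbove (i.succAbove j)), ?_, ?_⟩
      · rw [mem_closedBall_zero_iff, pi_norm_le_iff_of_nonneg zero_le_one]
        intro j
        exact hx1 _
      · apply ext_pt k i
        · simp [hx0]
        · simp [hb]
        · simp
  refine (measure_mono h1).trans ((measure_iUnion_le _).trans ?_)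
  rw [tsum_fintype]
  have h2 : ∀ p : Fin (m + 1) × Bool, μHE[m] ((fun z => pt k p.1 (0 + (0 : Fin m → ℝ) ⬝ᵥ z)
        (sgn p.2 + (0 : Fin m → ℝ) ⬝ᵥ z) z) '' (Metric.closedBall 0 1)) = 2 ^ m := by
    intro p
    rw [measure_param k p.1 _ _ _ _ (Or.inl rfl), Real.volume_pi_closedBall _ zero_le_one]
    simp
  rw [Finset.sum_congr rfl fun p _ => h2 p]
  simp only [Finset.sum_const, Finset.card_univ, Fintype.card_prod, Fintype.card_fin,
    Fintype.card_bool, nsmul_eq_mul]
  apply le_of_eq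
  push_cast
  ring

/-- (G4) the plane -/
theorem perimeter_two (u : EuclideanSpace ℝ (Fin 2)) (hu : ‖u‖ = 1) : perimeter u = 2 := by
  have hu2 : u 0 ^ 2 + u 1 ^ 2 = 1 := by
    have := EuclideanSpace.norm_sq_eq u
    rw [hu] at this
    simp only [one_pow, Fin.sum_univ_two, Real.norm_eq_abs, sq_abs] at this
    exact this.symm
  set M : ℝ := max |u 0| |u 1| with hM
  have hMpos : 0 < M := by
    rcases lt_or_eq_of_le (le_max_of_le_left (abs_nonneg (u 0)) : 0 ≤ M) with h | h
    · exact h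
    · exfalso
      have h0 : |u 0| ≤ 0 := h ▸ le_max_left _ _
      have h1 : |u 1| ≤ 0 := h ▸ le_max_right _ _
      have h0' : u 0 = 0 := abs_nonpos_iff.1 h0
      have h1' : u 1 = 0 := abs_nonpos_iff.1 h1
      rw [h0', h1'] at hu2
      norm_num at hu2
  -- the two boundary points
  let y : EuclideanSpace ℝ (Fin 2) := !₂[-(u 1) / M, u 0 / M]
  have hy0 : y 0 = -(u 1) / M := rfl
  have hy1 : y 1 = u 0 / M := rfl
  have hinner : ∀ x : EuclideanSpace ℝ (Fin 2), inner ℝ u x = u 0 * x 0 + u 1 * x 1 := by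
    intro x
    rw [PiLp.inner_apply, Fin.sum_univ_two]
    simp [mul_comm]
  have hyo : inner ℝ u y = 0 := by
    rw [hinner, hy0, hy1]
    field_simp
    ring
  have hyabs : max |y 0| |y 1| = 1 := by
    rw [hy0, hy1, abs_div, abs_div, abs_neg, abs_of_pos hMpos, max_div_div_right hMpos.le,
      max_comm, ← hM, div_self hMpos.ne']
  have hyle : ∀ i, |y i| ≤ 1 := by
    intro i
    rw [← hyabs]
    fin_cases i
    · exact le_max_left _ _
    · exact le_max_right _ _
  have hyeq : ∃ i, |y i| = 1 := by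
    rcases max_choice |y 0| |y 1| with h | h
    · exact ⟨0, by rw [← h, hyabs]⟩
    · exact ⟨1, by rw [← h, hyabs]⟩
  have hfr : ((↑) : ((ℝ ∙ u)ᗮ : Submodule ℝ (EuclideanSpace ℝ (Fin 2))) →
      EuclideanSpace ℝ (Fin 2)) '' frontier (centralSection u) = {y, -y} := by
    apply Set.Subset.antisymm
    · rintro _ ⟨x, hx, rfl⟩
      obtain ⟨hx1, q, hq⟩ := exists_eq_one_of_mem_frontier hx
      have hx0 : inner ℝ u (x : EuclideanSpace ℝ (Fin 2)) = 0 :=
        Submodule.mem_orthogonal_singleton_iff_inner_right.1 x.2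
      rw [hinner] at hx0
      -- x = t • y
      set t : ℝ := M * (u 0 * (x : EuclideanSpace ℝ (Fin 2)) 1 -
        u 1 * (x : EuclideanSpace ℝ (Fin 2)) 0) with ht
      have hxt : (x : EuclideanSpace ℝ (Fin 2)) = t • y := by
        ext p
        fin_cases p
        · show (x : EuclideanSpace ℝ (Fin 2)) 0 = t * y 0
          rw [hy0, ht]
          field_simp
          linear_combination (-(x : EuclideanSpace ℝ (Fin 2)) 0) * hu2 + u 0 * hx0
        · show (x : EuclideanSpace ℝ (Fin 2)) 1 = t * y 1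
          rw [hy1, ht]
          field_simp
          linear_combination (-(x : EuclideanSpace ℝ (Fin 2)) 1) * hu2 + u 1 * hx0
      have hmax : max |(x : EuclideanSpace ℝ (Fin 2)) 0| |(x : EuclideanSpace ℝ (Fin 2)) 1| = 1 := by
        apply le_antisymm (max_le (hx1 0) (hx1 1))
        rw [← hq]
        fin_cases q
        · exact le_max_left _ _
        · exact le_max_right _ _
      have habs : |t| = 1 := by
        rw [hxt] at hmax
        simp only [PiLp.smul_apply, smul_eq_mul, abs_mul] at hmax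
        rw [← mul_max_of_nonneg _ _ (abs_nonneg t), hyabs, mul_one] at hmax
        exact hmax
      rw [hxt]
      rcases eq_or_eq_neg_of_abs_eq habs with h | h
      · left; rw [h, one_smul]
      · right; rw [h, neg_one_smul]; rfl
    · rintro x (rfl | rfl)
      · exact ⟨⟨y, Submodule.mem_orthogonal_singleton_iff_inner_right.2 hyo⟩,
          mem_frontier_of _ hyle hyeq, rfl⟩
      · refine ⟨⟨-y, Submodule.mem_orthogonal_singleton_iff_inner_right.2 ?_⟩,
          mem_frontier_of _ ?_ ?_, rfl⟩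
        · rw [inner_neg_right, hyo, neg_zero]
        · intro i
          simpa using hyle i
        · obtain ⟨i, hi⟩ := hyeq
          exact ⟨i, by simpa using hi⟩
  have hne : y ≠ -y := by
    intro h
    obtain ⟨i, hi⟩ := hyeq
    have h2 : y i = -(y i) := by
      conv_lhs => rw [h]
      rfl
    have h3 : y i = 0 := by linarith
    rw [h3, abs_zero] at hi
    exact zero_ne_one hi
  have := perimeter_eq (m := 0) u
  rw [hfr] at this
  rw [this, Measure.euclideanHausdorffMeasure_zero]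
  have h5 : ({y, -y} : Set (EuclideanSpace ℝ (Fin 2))) = {y} ∪ {-y} := rfl
  rw [h5, measure_union (by simpa using hne) (measurableSet_singleton _),
    Measure.hausdorffMeasure_zero_singleton, Measure.hausdorffMeasure_zero_singleton]
  norm_num

end Helper58.Cube.Geom
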