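import Mathlib

/-! Elementary inequalities used in the perimeter problem. -/

namespace Helper58.Cube

theorem reg3 {a s : ℝ} (hs : 0 ≤ s) (h : a ^ 2 + s ^ 2 = 1) (ha : 133/200 ≤ a) (ha1 : a < 1) :
    2 * (1 + a) < a ^ 2 * (2 + s) ^ 2 := by
  set t := s / (1 + a) with ht
  have h1a : 0 < 1 + a := by linarith
  have ht0 : 0 ≤ t := div_nonneg hs h1a.le
  have hst : s = t * (1 + a) := by rw [ht]; field_simp
  have hsq : t ^ 2 * (1 + a) = 1 - a := by
    have : (t ^ 2 * (1 + a)) * (1 + a) = (1 - a) * (1 + a) := by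
      have : (t * (1 + a)) ^ 2 = 1 - a ^ 2 := by rw [← hst]; linarith
      nlinarith
    exact mul_right_cancel₀ h1a.ne' this
  have ht2 : t ^ 2 ≤ 67 / 333 := by
    have : t ^ 2 * (333/200) ≤ 67/200 := by nlinarith
    linarith
  have htp : 0 < t := by
    rcases ht0.eq_or_lt with h0 | h0
    · rw [← h0] at hsq; nlinarith
    · exact h0
  have ht1 : t ≤ 0.44857 := by nlinarith
  have ha' : a = (1 - t ^ 2) / (1 + t ^ 2) := by field_simp; linarith
  have hs' : s = 2 * t / (1 + t ^ 2) := by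
    rw [hst, ha']; field_simp; ring
  have hpos : 0 < t * (2 - 2 * t - 2 * t ^ 2 - 7 * t ^ 3 - 2 * t ^ 4 + 2 * t ^ 6 + t ^ 7) := by
    apply mul_pos htp
    have e1 : t ^ 2 ≤ 0.44857 ^ 2 := by gcongr
    have e2 : t ^ 3 ≤ 0.44857 ^ 3 := by gcongr
    have e3 : t ^ 4 ≤ 0.44857 ^ 4 := by gcongr
    have e6 : 0 ≤ t ^ 6 := by positivity
    have e7 : 0 ≤ t ^ 7 := by positivity
    rcases le_total t 0.44 with h4 | h4
    · have e1 : t ^ 2 ≤ 0.44 ^ 2 := by gcongr
      have e2 : t ^ 3 ≤ 0.44 ^ 3 := by gcongr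
      have e3 : t ^ 4 ≤ 0.44 ^ 4 := by gcongr
      norm_num at e1 e2 e3 ⊢
      nlinarith
    · have e6 : 0.44 ^ 6 ≤ t ^ 6 := by gcongr
      have e7 : 0.44 ^ 7 ≤ t ^ 7 := by gcongr
      norm_num at e1 e2 e3 e6 e7 ⊢
      nlinarith
  have key : a ^ 2 * (2 + s) ^ 2 - 2 * (1 + a) =
      4 * (t * (2 - 2 * t - 2 * t ^ 2 - 7 * t ^ 3 - 2 * t ^ 4 + 2 * t ^ 6 + t ^ 7)) /
        (1 + t ^ 2) ^ 4 := by
    rw [ha', hs']; field_simp; ring
  have : 0 < a ^ 2 * (2 + s) ^ 2 - 2 * (1 + a) := by rw [key]; positivity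
  linarith

theorem reg2_poly {a : ℝ} (h2 : 0.5547 ≤ a) (h3 : a ≤ 133/200) :
    0 < 176 - 2984 * a ^ 2 + 1296 * a ^ 3 + 14475 * a ^ 4 - 15228 * a ^ 5 - 14384 * a ^ 6
      + 40176 * a ^ 7 - 30088 * a ^ 8 := by
  rcases le_total a 0.61 with h | h
  · set x := a - 5547/10000 with hx
    have hax : a = x + 5547/10000 := by rw [hx]; ring
    have hx0 : 0 ≤ x := by rw [hx]; norm_num at h2 ⊢; linarith
    have hx1 : x ≤ 553/10000 := by rw [hx]; norm_num at h ⊢; linarith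
    have key : 176 - 2984 * a ^ 2 + 1296 * a ^ 3 + 14475 * a ^ 4 - 15228 * a ^ 5 - 14384 * a ^ 6
      + 40176 * a ^ 7 - 30088 * a ^ 8 = (127960047461181768808395704884879/12500000000000000000000000000000) * x ^ 0 + (51590547414292735344263064657/156250000000000000000000000) * x ^ 1 + (-23621436107503425271668583/31250000000000000000000) * x ^ 2 + (-27969768952104078179289/1562500000000000000) * x ^ 3 + (-6693511518366813687/125000000000000) * x ^ 4 + (-1423130725310121/15625000000) * x ^ 5 + (-367512870343/3125000) * x ^ 6 + (-58339068/625) * x ^ 7 + (-30088) * x ^ 8 := by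
      rw [hax]; ring
    rw [key]
    have m : ∀ n : ℕ, x ^ (n + 2) ≤ (553/10000) ^ (n+1) * x := by
      intro n
      rw [show x ^ (n + 2) = x ^ (n + 1) * x by ring]
      apply mul_le_mul_of_nonneg_right _ hx0
      exact pow_le_pow_left₀ hx0 hx1 _
    have m0 := m 0
    have m1 := m 1
    have m2 := m 2
    have m3 := m 3
    have m4 := m 4
    have m5 := m 5
    have m6 := m 6
    norm_num at m0 m1 m2 m3 m4 m5 m6 ⊢
    linarith
  · set y := 133/200 - a with hy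
    have hay : a = 133/200 - y := by rw [hy]; ring
    have hy0 : 0 ≤ y := by rw [hy]; linarith
    have hy1 : y ≤ 55/1000 := by rw [hy]; norm_num at h ⊢; linarith
    have key : 176 - 2984 * a ^ 2 + 1296 * a ^ 3 + 14475 * a ^ 4 - 15228 * a ^ 5 - 14384 * a ^ 6
      + 40176 * a ^ 7 - 30088 * a ^ 8 = (1214204662307216799/320000000000000000) * y ^ 0 + (171498170517387147/200000000000000) * y ^ 1 + (-24209773997498163/2000000000000) * y ^ 2 + (281371812820761/5000000000) * y ^ 3 + (-2598728491967/20000000) * y ^ 4 + (24377461349/125000) * y ^ 5 + (-249904203/1250) * y ^ 6 + (2997304/25) * y ^ 7 + (-30088) * y ^ 8 := by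
      rw [hay]; ring
    rw [key]
    have m : ∀ n : ℕ, y ^ (n + 2) ≤ (55/1000) * y ^ (n + 1) := by
      intro n
      rw [show y ^ (n + 2) = y * y ^ (n + 1) by ring]
      exact mul_le_mul_of_nonneg_right hy1 (pow_nonneg hy0 _)
    have m0 := m 0
    have m2 := m 2
    have m4 := m 4
    have m6 := m 6
    have p3 := pow_nonneg hy0 3
    have p5 := pow_nonneg hy0 5
    have p7 := pow_nonneg hy0 7
    norm_num at m0 m2 m4 m6 ⊢
    linarith

theorem reg2 {a s : ℝ} (hs : 0 ≤ s) (h : a ^ 2 + s ^ 2 = 1) (ha : 2 * s ≤ 3 * a) (ha0 : 0 < a)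
    (ha1 : a ≤ 133/200) :
    162 * a ^ 3 * (1 + s) < (31 * a ^ 2 - 4) * (5 + 6 * s - 2 * a ^ 2) := by
  have h1 : 4/13 ≤ a ^ 2 := by nlinarith
  have h2 : 0.5547 ≤ a := by nlinarith
  have hA0 : 0 < 186 * a ^ 2 - 24 - 162 * a ^ 3 := by nlinarith
  have hmain : 62 * a ^ 4 + 162 * a ^ 3 - 163 * a ^ 2 + 20 <
      s * (186 * a ^ 2 - 24 - 162 * a ^ 3) := by
    have hsq : (62 * a ^ 4 + 162 * a ^ 3 - 163 * a ^ 2 + 20) ^ 2 <
        (s * (186 * a ^ 2 - 24 - 162 * a ^ 3)) ^ 2 := by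
      have : (s * (186 * a ^ 2 - 24 - 162 * a ^ 3)) ^ 2 =
          (1 - a ^ 2) * (186 * a ^ 2 - 24 - 162 * a ^ 3) ^ 2 := by
        rw [mul_pow]; congr 1; linarith
      rw [this]
      have := reg2_poly h2 ha1
      nlinarith
    exact lt_of_pow_lt_pow_left₀ 2 (by positivity) hsq
  nlinarith

theorem tangent {X y κ : ℝ} (hy : 0 ≤ y) (hκ : 0 < κ) (h : X ^ 3 ≤ y ^ 2) :
    X ≤ κ ^ 2 / 3 + 2 / (3 * κ) * y := by
  by_contra hc
  push Not at hc
  set c := κ ^ 2 / 3 + 2 / (3 * κ) * y with hcdef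
  have hc0 : 0 ≤ c := by positivity
  have h1 : y ^ 2 ≤ c ^ 3 := by
    have e : c = (κ ^ 3 + 2 * y) / (3 * κ) := by rw [hcdef]; field_simp
    rw [e, div_pow, le_div_iff₀ (by positivity)]
    have : 0 ≤ (κ ^ 3 - y) ^ 2 * (κ ^ 3 + 8 * y) := by positivity
    nlinarith
  have h2 : c ^ 3 < X ^ 3 := pow_lt_pow_left₀ hc hc0 (by norm_num)
  linarith

theorem strict_aux {a s p ψ L : ℝ} (ha : 0 < a) (h32 : 3 * a ≤ 2 * s) (hψ : 0 < ψ)
    (haL : a ≤ L) (hp : ψ * (L - a) = 1 - p) (hA1 : a * ψ ≤ p)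
    (hL : ψ * L ^ 3 ≤ s ^ 2) (hL' : L ≤ s → ψ * L ^ 3 < s ^ 2) : a < p * s := by
  have hs : 0 < s := by linarith
  have hL0 : 0 < L := by linarith
  have hψL : ψ * L ≤ 1 := by nlinarith
  have hpe : p = 1 - ψ * (L - a) := by linarith
  rcases lt_trichotomy L s with h | h | h
  · -- p ≥ a / L
    have h1 : a ≤ p * L := by
      have : p * L = L - ψ * L * (L - a) := by rw [hpe]; ring
      rw [this]
      nlinarith
    have hp0 : 0 < p := by
      by_contra hc
      push Not at hc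
      nlinarith
    nlinarith
  · have h1 := hL' h.le
    rw [h] at h1
    have h2 : ψ * s < 1 := by
      have : (ψ * s) * s ^ 2 < 1 * s ^ 2 := by nlinarith
      exact lt_of_mul_lt_mul_right this (by positivity)
    rw [hpe, h]
    have : (1 - ψ * (s - a)) * s - a = (1 - ψ * s) * (s - a) := by ring
    have h3 : 0 < (1 - ψ * s) * (s - a) := mul_pos (by linarith) (by linarith)
    linarith
  · -- L > s
    have h1 : p * L ^ 3 ≥ L ^ 3 - s ^ 2 * (L - a) := by
      have : p * L ^ 3 = L ^ 3 - (ψ * L ^ 3) * (L - a) := by rw [hpe]; ring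
      rw [this]
      have := mul_le_mul_of_nonneg_right hL (by linarith : 0 ≤ L - a)
      linarith
    have h2 : 0 < s * L ^ 3 - s ^ 3 * (L - a) - a * L ^ 3 := by
      have e : s * L ^ 3 - s ^ 3 * (L - a) - a * L ^ 3 =
          (L - s) * ((s - a) * L ^ 2 + (s - a) * s * L - a * s ^ 2) := by ring
      rw [e]
      apply mul_pos (by linarith)
      have hsa : 0 < s - a := by linarith
      have e1 : (s - a) * s ^ 2 < (s - a) * L ^ 2 := by
        apply mul_lt_mul_of_pos_left _ hsa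
        nlinarith
      have e2 : (s - a) * s ^ 2 < (s - a) * s * L := by
        have : (s - a) * s * s < (s - a) * s * L := mul_lt_mul_of_pos_left h (by positivity)
        nlinarith
      have e3 : 0 ≤ s ^ 2 * (2 * s - 3 * a) := by
        apply mul_nonneg (by positivity); linarith
      nlinarith
    have h3 : a * L ^ 3 < p * s * L ^ 3 := by
      have := mul_le_mul_of_nonneg_right h1.le hs.le
      nlinarith
    exact lt_of_mul_lt_mul_right h3 (by positivity)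

theorem gauss_p {a s p ψ : ℝ} (ha0 : 0 < a) (hψ0 : 0 ≤ ψ)
    (hF2 : (1 - p + ψ * a) ^ 3 ≤ (ψ * s) ^ 2) : 27 * a ^ 2 * (1 - p) ≤ 4 * s ^ 2 := by
  by_cases hp1 : p ≤ 1
  · rcases hψ0.eq_or_lt with h0 | h0
    · rw [← h0] at hF2
      have : 1 - p ≤ 0 := by
        by_contra hc
        push Not at hc
        have : 0 < (1 - p) ^ 3 := by positivity
        nlinarith
      nlinarith [sq_nonneg s, sq_nonneg a]
    · have hx : 0 ≤ 1 - p := by linarith
      have hy : 0 < ψ * a := by positivity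
      have amgm : 27 * (1 - p) * (ψ * a) ^ 2 ≤ 4 * (1 - p + ψ * a) ^ 3 := by
        have h1 : 0 ≤ (2 * (1 - p) - ψ * a) ^ 2 * (1 - p + 4 * (ψ * a)) := by positivity
        have h2 : 4 * (1 - p + ψ * a) ^ 3 - 27 * (1 - p) * (ψ * a) ^ 2 =
          (2 * (1 - p) - ψ * a) ^ 2 * (1 - p + 4 * (ψ * a)) := by ring
        linarith
      have : (27 * a ^ 2 * (1 - p)) * ψ ^ 2 ≤ (4 * s ^ 2) * ψ ^ 2 := by
        have e1 : (27 * a ^ 2 * (1 - p)) * ψ ^ 2 = 27 * (1 - p) * (ψ * a) ^ 2 := by ring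
        have e2 : (4 * s ^ 2) * ψ ^ 2 = 4 * (ψ * s) ^ 2 := by ring
        rw [e1, e2]
        linarith
      exact le_of_mul_le_mul_right this (by positivity)
  · push Not at hp1
    nlinarith [sq_nonneg s, sq_nonneg a]

theorem regime2 {N a s p T : ℝ} (hN : 3 ≤ N) (ha0 : 0 < a) (hs0 : 0 < s)
    (has : a ^ 2 + s ^ 2 = 1) (hp0 : 0 ≤ p)
    (h8 : 162 * a ^ 3 * (1 + s) < (31 * a ^ 2 - 4) * (5 + 6 * s - 2 * a ^ 2))
    (h9 : 27 * a ^ 2 * (1 - p) ≤ 4 * s ^ 2)
    (h12 : p / 2 * (N * s + (N - s ^ 2 / (1 + s))) ≤ T) : a * N < T := by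
  have hpos : 0 < 1 + s := by linarith
  have h13 : s ^ 2 / (1 + s) ≤ N / 3 * (s ^ 2 / (1 + s)) := by
    have h1 : 0 ≤ s ^ 2 / (1 + s) := by positivity
    have h2 : 1 ≤ N / 3 := by linarith
    have := mul_le_mul_of_nonneg_right h2 h1
    linarith
  have h14 : p / 2 * (N * (s + 1 - s ^ 2 / (1 + s) / 3)) ≤ T := by
    refine le_trans ?_ h12
    apply mul_le_mul_of_nonneg_left _ (by positivity)
    linarith
  have h15 : a * N < p / 2 * (N * (s + 1 - s ^ 2 / (1 + s) / 3)) := by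
    have e : s + 1 - s ^ 2 / (1 + s) / 3 = (3 + 6 * s + 2 * s ^ 2) / (3 * (1 + s)) := by
      field_simp; ring
    rw [e]
    have h16 : 31 * a ^ 2 - 4 ≤ 27 * a ^ 2 * p := by linarith
    have h17 : 162 * a ^ 3 * (1 + s) < 27 * a ^ 2 * p * (3 + 6 * s + 2 * s ^ 2) := by
      have e2 : 5 + 6 * s - 2 * a ^ 2 = 3 + 6 * s + 2 * s ^ 2 := by linarith
      rw [e2] at h8
      have : (31 * a ^ 2 - 4) * (3 + 6 * s + 2 * s ^ 2) ≤
          27 * a ^ 2 * p * (3 + 6 * s + 2 * s ^ 2) :=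
        mul_le_mul_of_nonneg_right h16 (by positivity)
      linarith
    have h18 : 6 * a * (1 + s) < p * (3 + 6 * s + 2 * s ^ 2) := by
      have : (6 * a * (1 + s)) * (27 * a ^ 2) < (p * (3 + 6 * s + 2 * s ^ 2)) * (27 * a ^ 2) := by
        linarith
      exact lt_of_mul_lt_mul_right this (by positivity)
    have e3 : p / 2 * (N * ((3 + 6 * s + 2 * s ^ 2) / (3 * (1 + s)))) - a * N =
        N * (p * (3 + 6 * s + 2 * s ^ 2) - 6 * a * (1 + s)) / (6 * (1 + s)) := by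
      field_simp
      ring
    have : 0 < p / 2 * (N * ((3 + 6 * s + 2 * s ^ 2) / (3 * (1 + s)))) - a * N := by
      rw [e3]
      apply div_pos (mul_pos (by linarith) (by linarith)) (by linarith)
    linarith
  linarith

theorem regime3 {N a s p ψ T S1 D : ℝ} (hN : 3 ≤ N) (ha0 : 0 < a) (ha1 : a < 1) (hs0 : 0 < s)
    (hs1 : s < 1) (has : a ^ 2 + s ^ 2 = 1) (hψ0 : 0 ≤ ψ)
    (hF2 : (1 - p + ψ * a) ^ 3 ≤ (ψ * s) ^ 2)
    (h8 : 2 * (1 + a) < a ^ 2 * (2 + s) ^ 2) (h4 : N * p ≤ S1 + a * ψ) (hD : D ≤ 1 - a)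
    (R3 : S1 - D ≤ T) : a * N < T + a * s * ψ := by
  set κ := 2 * s / (a * (2 + s)) with hκ
  have hκ0 : 0 < κ := by positivity
  have h9 := tangent (X := 1 - p + ψ * a) (y := ψ * s) (by positivity) hκ0 hF2
  have e1 : 2 / (3 * κ) * (ψ * s) = ψ * a * (2 + s) / 3 := by
    rw [hκ]; field_simp
  rw [e1] at h9
  have hκsq : κ ^ 2 < 2 * (1 - a) := by
    rw [hκ, div_pow, div_lt_iff₀ (by positivity)]
    have : (2 * s) ^ 2 = 2 * (1 - a) * (2 * (1 + a)) := by linarith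
    rw [this, mul_pow]
    exact mul_lt_mul_of_pos_left h8 (by linarith)
  have h10 : N * (1 + ψ * a - κ ^ 2 / 3 - ψ * a * (2 + s) / 3) ≤ N * p := by
    apply mul_le_mul_of_nonneg_left _ (by linarith)
    linarith
  have h11 : N * (κ ^ 2 / 3) < N * (2 * (1 - a) / 3) := by
    apply mul_lt_mul_of_pos_left _ (by linarith)
    linarith
  have h12 : 0 ≤ (N - 3) * (1 - s) * (ψ * a) := by
    apply mul_nonneg (mul_nonneg (by linarith) (by linarith)) (by positivity)
  have h13 : 0 ≤ (N - 3) * (1 - a) := mul_nonneg (by linarith) (by linarith)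
  linarith

/-- The final inequality. -/
theorem numeric {n : ℕ} (hn : 3 ≤ n) (w : Fin n → ℝ) {a s : ℝ} (ha0 : 0 < a) (ha1 : a < 1)
    (hs0 : 0 < s) (has : a ^ 2 + s ^ 2 = 1) (hw : ∑ j, w j ^ 2 = s ^ 2) (hwa : ∀ j, |w j| ≤ a)
    {p ψ : ℝ} (mi : Fin n → ℝ) (hψ0 : 0 ≤ ψ) (hp0 : 0 ≤ p) (hF2 : (1 - p + ψ * a) ^ 3 ≤ (ψ * s) ^ 2)
    (hstrict : 3 * a ≤ 2 * s → a < p * s) (h3 : ∀ i, p / 2 ≤ mi i) (h3' : ∀ i, mi i ≤ 1)
    (h4 : n * p ≤ (∑ i, mi i) + a * ψ) :
    (n : ℝ) < (∑ i, √(1 - w i ^ 2) * mi i) / a + s * ψ := by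
  have hN : (3 : ℝ) ≤ n := by exact_mod_cast hn
  set N : ℝ := (n : ℝ) with hNdef
  have hs1 : s < 1 := by nlinarith
  have hwsq : ∀ j, w j ^ 2 ≤ a ^ 2 := by
    intro j
    rw [← sq_abs (w j)]
    exact pow_le_pow_left₀ (abs_nonneg _) (hwa j) 2
  have hwsq2 : ∀ j, w j ^ 2 ≤ s ^ 2 := by
    intro j
    rw [← hw]
    exact Finset.single_le_sum (f := fun j => w j ^ 2) (fun i _ => sq_nonneg _) (Finset.mem_univ j)
  set σ : Fin n → ℝ := fun i => √(1 - w i ^ 2) with hσ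
  have hσsq : ∀ i, σ i ^ 2 = 1 - w i ^ 2 := by
    intro i
    exact Real.sq_sqrt (by nlinarith [hwsq i])
  have hσ0 : ∀ i, 0 ≤ σ i := fun i => Real.sqrt_nonneg _
  have hσs : ∀ i, s ≤ σ i := by
    intro i
    apply le_of_sq_le_sq _ (hσ0 i)
    rw [hσsq]; nlinarith [hwsq i]
  have hσa : ∀ i, a ≤ σ i := by
    intro i
    apply le_of_sq_le_sq _ (hσ0 i)
    rw [hσsq]; nlinarith [hwsq2 i]
  have hσ1 : ∀ i, σ i ≤ 1 := by
    intro i
    apply le_of_sq_le_sq _ zero_le_one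
    rw [hσsq]; nlinarith [sq_nonneg (w i)]
  set S1 := ∑ i, mi i with hS1
  set Sσ := ∑ i, σ i with hSσ
  set T := ∑ i, σ i * mi i with hT
  have hmi0 : ∀ i, 0 ≤ mi i := fun i => (by positivity : (0:ℝ) ≤ p / 2).trans (h3 i)
  -- D bounds
  have hD : ∀ c : ℝ, 0 < c → (∀ i, c ≤ σ i) → N - Sσ ≤ s ^ 2 / (1 + c) := by
    intro c hc hcσ
    have : ∑ i, (1 - σ i) ≤ ∑ i, w i ^ 2 / (1 + c) := by
      apply Finset.sum_le_sum
      intro i _
      rw [le_div_iff₀ (by linarith)]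
      have h1 := hσsq i
      have h2 := hcσ i
      have h3 := hσ1 i
      nlinarith
    rw [← Finset.sum_div, hw] at this
    simpa [Finset.sum_sub_distrib, hSσ, hNdef] using this
  have hDs : N - Sσ ≤ s ^ 2 / (1 + s) := hD s hs0 hσs
  have hDa : N - Sσ ≤ 1 - a := by
    have := hD a ha0 hσa
    have e : s ^ 2 / (1 + a) = 1 - a := by
      rw [div_eq_iff (by linarith)]; linarith
    rwa [e] at this
  -- three lower bounds
  have R1 : s * S1 ≤ T := by
    rw [hS1, hT, Finset.mul_sum]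
    apply Finset.sum_le_sum
    intro i _
    exact mul_le_mul_of_nonneg_right (hσs i) (hmi0 i)
  have R2 : s * S1 + p / 2 * (Sσ - N * s) ≤ T := by
    have : ∑ i, (s * mi i + p / 2 * (σ i - s)) ≤ ∑ i, σ i * mi i := by
      apply Finset.sum_le_sum
      intro i _
      nlinarith [mul_nonneg (sub_nonneg.2 (hσs i)) (sub_nonneg.2 (h3 i))]
    rw [Finset.sum_add_distrib, ← Finset.mul_sum, ← Finset.mul_sum, Finset.sum_sub_distrib] at this
    simpa [hS1, hT, hSσ, hNdef] using this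
  have R3 : S1 - (N - Sσ) ≤ T := by
    have : ∑ i, (mi i - (1 - σ i)) ≤ ∑ i, σ i * mi i := by
      apply Finset.sum_le_sum
      intro i _
      nlinarith [mul_nonneg (sub_nonneg.2 (hσ1 i)) (sub_nonneg.2 (h3' i))]
    rw [Finset.sum_sub_distrib, Finset.sum_sub_distrib] at this
    simpa [hS1, hT, hSσ, hNdef] using this
  rw [← sub_pos]
  have goal_eq : T / a + s * ψ - N = (T + a * s * ψ - a * N) / a := by field_simp
  rw [goal_eq]
  apply div_pos _ ha0
  rcases le_total (3 * a) (2 * s) with h | h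
  · -- regime 1
    have h5 := hstrict h
    have h6 : s * (N * p - a * ψ) ≤ s * S1 := mul_le_mul_of_nonneg_left (by linarith) hs0.le
    have h9 : N * a < N * (p * s) := mul_lt_mul_of_pos_left h5 (by linarith)
    linarith
  · rcases le_total a (133/200) with h7 | h7
    · -- regime 2
      have h8 := reg2 hs0.le has h ha0 h7
      have h9 := gauss_p ha0 hψ0 hF2
      -- T + a s ψ ≥ s N p + (p/2)(Sσ - N s)
      have h10 : s * (N * p - a * ψ) ≤ s * S1 := mul_le_mul_of_nonneg_left (by linarith) hs0.le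
      have h11 : p / 2 * (N * s + Sσ) ≤ T + a * s * ψ := by linarith
      have h12 : p / 2 * (N * s + (N - s ^ 2 / (1 + s))) ≤ T + a * s * ψ := by
        refine le_trans ?_ h11
        apply mul_le_mul_of_nonneg_left _ (by positivity)
        linarith
      have := regime2 hN ha0 hs0 has hp0 h8 h9 h12
      linarith
    · -- regime 3
      have h8 := reg3 hs0.le has h7 ha1
      have := regime3 hN ha0 ha1 hs0 hs1 has hψ0 hF2 h8 h4 hDa R3
      linarith

end Helper58.Cube
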