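import Pool.Agent.Helper58.Cube.Second
import Pool.Agent.Helper58.Cube.Cones
import Pool.Agent.Helper58.Cube.Numeric
import Pool.Agent.Helper58.Cube.Geom

/-! Assembly of the lower bound for the perimeter. -/

namespace Helper58.Cube

open MeasureTheory Set
open scoped ENNReal

variable {m : ℕ}

theorem sum_sq_le_sq (v : Fin m → ℝ) : ∑ j, v j ^ 2 ≤ (∑ j, |v j|) ^ 2 := by
  rw [sq, Finset.sum_mul]
  apply Finset.sum_le_sum
  intro i _
  rw [← sq_abs, sq]
  apply mul_le_mul_of_nonneg_left _ (abs_nonneg _)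
  exact Finset.single_le_sum (f := fun j => |v j|) (fun i _ => abs_nonneg _) (Finset.mem_univ i)

/-- The analytic lower bound in case there are at least two nonzero weights, `m ≥ 2`. -/
theorem analytic (hm : 2 ≤ m) (w : Fin (m + 1) → ℝ) {a s : ℝ} (ha0 : 0 < a) (ha1 : a < 1)
    (hs0 : 0 < s) (has : a ^ 2 + s ^ 2 = 1) (hw : ∑ j, w j ^ 2 = s ^ 2) (hwa : ∀ j, |w j| ≤ a)
    (l : Fin (m + 1)) (hl : w l ≠ 0) (hl2 : ∃ j, del l w j ≠ 0) :
    ((m + 1 : ℕ) : ℝ) < (∑ i, √(1 - w i ^ 2) * (((2 : ℝ) ^ m)⁻¹ * (G (del i w) a (w i)).toReal)) / a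
      + s * dens l w a := by
  set f := dens l w with hf
  set ψ := f a with hψ
  set p := ((2 : ℝ) ^ (m + 1))⁻¹ * (G w a 0).toReal with hp
  have hf0 : ∀ x, 0 ≤ f x := dens_nonneg l w
  have hanti : AntitoneOn f (Ici 0) := by
    intro x hx y hy hxy
    exact dens_mono l w (by rw [abs_of_nonneg hx, abs_of_nonneg hy]; exact hxy)
  obtain ⟨hint, h1⟩ := dens_one l w hl
  obtain ⟨hint2, hV⟩ := dens_second l w hl
  have hmass := dens_mass l w hl a
  rw [← hp] at hmass
  obtain ⟨hA1, hG⟩ := gauss_ineq hf0 hanti hint h1 hint2 hV ha0 hmass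
  have h3V : 3 * ((∑ j, w j ^ 2) / 3) = s ^ 2 := by rw [hw]; ring
  rw [h3V] at hG
  have hsplit : p + ∫ x in Ioi a, f x = 1 := by
    rw [← h1, ← hmass, ← setIntegral_union (Ioc_disjoint_Ioi le_rfl) measurableSet_Ioi
      (hint.mono_set Ioc_subset_Ioi_self) (hint.mono_set (Ioi_subset_Ioi ha0.le)),
      Ioc_union_Ioi_eq_Ioi ha0.le]
  have hp1 : p ≤ 1 := by
    have : 0 ≤ ∫ x in Ioi a, f x := integral_nonneg fun x => hf0 x
    linarith
  have hp0 : 0 ≤ p := by rw [hp]; positivity
  have hψ0 : 0 ≤ ψ := hf0 a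
  -- s < ∑ |w j|
  have hsl : s < ∑ j, |w j| := by
    rw [Fin.sum_univ_succAbove _ l]
    have e1 : ∑ j, w j ^ 2 = w l ^ 2 + ∑ j, (del l w j) ^ 2 := by
      rw [Fin.sum_univ_succAbove _ l]; rfl
    have e2 := sum_sq_le_sq (del l w)
    have e3 : 0 < ∑ j, |del l w j| := by
      obtain ⟨j, hj⟩ := hl2
      exact lt_of_lt_of_le (abs_pos.2 hj) (Finset.single_le_sum (f := fun j => |del l w j|)
        (fun i _ => abs_nonneg _) (Finset.mem_univ j))
    have e4 : 0 < |w l| := abs_pos.2 hl
    have e5 : w l ^ 2 = |w l| ^ 2 := (sq_abs _).symm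
    change s < |w l| + ∑ j, |del l w j|
    apply lt_of_pow_lt_pow_left₀ 2 (by positivity)
    nlinarith
  -- the two consequences
  have key : (1 - p + ψ * a) ^ 3 ≤ (ψ * s) ^ 2 ∧ (3 * a ≤ 2 * s → a < p * s) := by
    rcases hψ0.eq_or_lt with h0 | h0
    · have hp1' : p = 1 := by
        have : ∫ x in Ioi a, f x = 0 := by
          apply setIntegral_eq_zero_of_forall_eq_zero
          intro x hx
          have hx' : a < x := hx
          have : f x ≤ f a := hanti (mem_Ici.2 ha0.le) (mem_Ici.2 (ha0.trans hx').le) hx'.le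
          exact le_antisymm (by rw [h0]; exact this) (hf0 x)
        linarith
      rw [hp1', ← h0]
      refine ⟨by norm_num, fun h => by linarith⟩
    · set L := a + (1 - p) / ψ with hL
      have haL : a ≤ L := by
        have : 0 ≤ (1 - p) / ψ := div_nonneg (by linarith) h0.le
        linarith
      have hLp : ψ * (L - a) = 1 - p := by rw [hL]; field_simp; ring
      have hGL := hG L haL hLp
      have hbase : ψ * L ^ 3 ≤ s ^ 2 := by
        have := hGL L le_rfl
        simpa using this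
      have hstr : L ≤ s → ψ * L ^ 3 < s ^ 2 := by
        intro hLs
        obtain ⟨t, ht1, ht2⟩ := exists_between (lt_of_le_of_lt hLs hsl)
        have hL0 : 0 < L := by linarith
        have := hGL t ht1.le
        have hft : 0 < f t := dens_pos l w hl (by linarith) ht2
        have : 0 < f t * ((t - L) ^ 2 * (t + 2 * L)) := by
          apply mul_pos hft
          apply mul_pos (by have : 0 < t - L := by linarith
                            positivity) (by linarith)
        linarith
      refine ⟨?_, fun h => strict_aux ha0 h h0 haL hLp hA1 hbase hstr⟩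
      have e1 : 1 - p + ψ * a = ψ * L := by rw [← hLp]; ring
      rw [e1, mul_pow, mul_pow]
      have : ψ ^ 2 * (ψ * L ^ 3) ≤ ψ ^ 2 * s ^ 2 := mul_le_mul_of_nonneg_left hbase (by positivity)
      linarith
  apply numeric (n := m + 1) (by omega) w ha0 ha1 hs0 has hw hwa
    (fun i => ((2 : ℝ) ^ m)⁻¹ * (G (del i w) a (w i)).toReal) hψ0 hp0 key.1 key.2
  · intro i
    have h4 := quarter i w (hwa i)
    have h5 : (G w a 0).toReal ≤ 4 * (G (del i w) a (w i)).toReal := by
      have := ENNReal.toReal_mono (ENNReal.mul_ne_top (by simp) (G_ne_top _ _ _)) h4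
      simpa using this
    rw [hp, pow_succ]
    have h2m : (0 : ℝ) < 2 ^ m := by positivity
    rw [mul_inv]
    have : ((2 : ℝ) ^ m)⁻¹ * (G w a 0).toReal ≤ ((2 : ℝ) ^ m)⁻¹ * (4 * (G (del i w) a (w i)).toReal) :=
      mul_le_mul_of_nonneg_left h5 (by positivity)
    linarith
  · intro i
    have h6 := (G_toReal_bdd (del i w) a (w i)).2
    have h2m : (0 : ℝ) < 2 ^ m := by positivity
    rw [inv_mul_le_iff₀ h2m]; linarith
  · have h7 := cone_ineq l w hl ha0
    have h2m : (0 : ℝ) < 2 ^ m := by positivity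
    have hm1 : (0 : ℝ) < (m : ℝ) + 1 := by positivity
    have h8 : (G w a 0).toReal ≤ (∑ i, 2 / ((m : ℝ) + 1) * (G (del i w) a (w i)).toReal) +
        |(w l)⁻¹| * (2 * a / (m + 1) * (G (del l w) |w l| a).toReal) := by
      have := ENNReal.toReal_mono (by
        apply ENNReal.add_ne_top.2
        constructor
        · apply ENNReal.sum_ne_top.2
          intro i _
          exact ENNReal.mul_ne_top ENNReal.ofReal_ne_top (G_ne_top _ _ _)
        · exact ENNReal.mul_ne_top ENNReal.ofReal_ne_top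
            (ENNReal.mul_ne_top ENNReal.ofReal_ne_top (G_ne_top _ _ _))) h7
      rw [ENNReal.toReal_add, ENNReal.toReal_sum] at this
      · simp only [ENNReal.toReal_mul] at this
        rw [ENNReal.toReal_ofReal (by positivity), ENNReal.toReal_ofReal (by positivity),
          ENNReal.toReal_ofReal (by positivity)] at this
        exact this
      · intro i _
        exact ENNReal.mul_ne_top ENNReal.ofReal_ne_top (G_ne_top _ _ _)
      · apply ENNReal.sum_ne_top.2
        intro i _
        exact ENNReal.mul_ne_top ENNReal.ofReal_ne_top (G_ne_top _ _ _)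
      · exact ENNReal.mul_ne_top ENNReal.ofReal_ne_top
            (ENNReal.mul_ne_top ENNReal.ofReal_ne_top (G_ne_top _ _ _))
    have h9 : ψ = |(w l)⁻¹| * ((2 : ℝ) ^ m)⁻¹ * (G (del l w) |w l| a).toReal := rfl
    rw [h9, hp, ← Finset.mul_sum]
    rw [← Finset.mul_sum] at h8
    push_cast
    have h10 : ((m : ℝ) + 1) * (((2 : ℝ) ^ (m + 1))⁻¹ * (G w a 0).toReal) ≤
        ((m : ℝ) + 1) * (((2 : ℝ) ^ (m + 1))⁻¹ *
          (2 / ((m : ℝ) + 1) * (∑ i, (G (del i w) a (w i)).toReal) +
        |(w l)⁻¹| * (2 * a / (m + 1) * (G (del l w) |w l| a).toReal))) := by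
      gcongr
    refine h10.trans (le_of_eq ?_)
    rw [pow_succ]
    field_simp

end Helper58.Cube
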