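import Mathlib

/-! Definitions for the perimeter of central sections of the cube. -/

namespace Helper58.Cube

open MeasureTheory Set
open scoped ENNReal

/-- The central section `u^⊥ ∩ [-1,1]^n`, as a subset of the hyperplane `u^⊥`. -/
def centralSection {n : ℕ} (u : EuclideanSpace ℝ (Fin n)) :
    Set ((ℝ ∙ u)ᗮ : Submodule ℝ (EuclideanSpace ℝ (Fin n))) :=
  {x | ∀ i, |(x : EuclideanSpace ℝ (Fin n)) i| ≤ 1}

/-- Its perimeter: the (normalised) `(n-2)`-dimensional Hausdorff measure of its boundary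
relative to `u^⊥`. -/
noncomputable def perimeter {n : ℕ} (u : EuclideanSpace ℝ (Fin n)) : ℝ≥0∞ :=
  μHE[n - 2] (frontier (centralSection u))

/-- Lebesgue measure of `{z ∈ [-1,1]^m : |τ + v·z| ≤ b}`. -/
noncomputable def G {m : ℕ} (v : Fin m → ℝ) (b τ : ℝ) : ℝ≥0∞ :=
  volume {z : Fin m → ℝ | z ∈ Metric.closedBall 0 1 ∧ |τ + v ⬝ᵥ z| ≤ b}

end Helper58.Cube
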