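import Mathlib

/-! One-dimensional Gauss type inequality for a nonincreasing density on the half line. -/

namespace Helper58.Cube

open MeasureTheory Set

/-- If `f ≥ 0` is nonincreasing on `[0,∞)` with total mass one and second moment `V`,
`p` is its mass on `(0,a]` and `L ≥ a` satisfies `f a * (L - a) = 1 - p`, then for every
`t ≥ L` one has `f a * L ^ 3 + f t * ((t - L) ^ 2 * (t + 2 * L)) ≤ 3 * V`. -/
theorem gauss_ineq {f : ℝ → ℝ} (hf0 : ∀ x, 0 ≤ f x) (hanti : AntitoneOn f (Ici 0))
    (hint : IntegrableOn f (Ioi 0)) (h1 : ∫ x in Ioi 0, f x = 1)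
    (hint2 : IntegrableOn (fun x => x ^ 2 * f x) (Ioi 0)) {V : ℝ}
    (hV : ∫ x in Ioi 0, x ^ 2 * f x = V)
    {a : ℝ} (ha : 0 < a) {p : ℝ} (hp : ∫ x in Ioc 0 a, f x = p) :
    a * f a ≤ p ∧ ∀ L, a ≤ L → f a * (L - a) = 1 - p → ∀ t, L ≤ t →
      f a * L ^ 3 + f t * ((t - L) ^ 2 * (t + 2 * L)) ≤ 3 * V := by
  have hpoly2 : ∀ x y : ℝ, ∫ z in x..y, z ^ 2 = (y ^ 3 - x ^ 3) / 3 := by
    intro x y
    rw [integral_pow]; norm_num
  have hcont : Continuous (fun z : ℝ => z ^ 2) := by fun_prop
  constructor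
  · have hm : ∫ x in Ioc 0 a, f a ≤ ∫ x in Ioc 0 a, f x := by
      apply setIntegral_mono_on
      · exact integrableOn_const (by simp) (by simp)
      · exact hint.mono_set Ioc_subset_Ioi_self
      · exact measurableSet_Ioc
      · intro x hx
        exact hanti (mem_Ici.2 hx.1.le) (mem_Ici.2 ha.le) hx.2
    rw [hp] at hm
    simpa [ha.le] using hm
  · intro L hL hLp t ht
    have hL0 : 0 < L := lt_of_lt_of_le ha hL
    have ht0 : 0 < t := lt_of_lt_of_le hL0 ht
    -- splitting
    have hs1 : Ioi (0:ℝ) = Ioc 0 a ∪ Ioi a := (Ioc_union_Ioi_eq_Ioi ha.le).symm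
    have hs2 : Ioi (a:ℝ) = Ioc a L ∪ Ioi L := (Ioc_union_Ioi_eq_Ioi hL).symm
    have hs3 : Ioi (L:ℝ) = Ioc L t ∪ Ioi t := (Ioc_union_Ioi_eq_Ioi ht).symm
    have split : ∀ g : ℝ → ℝ, IntegrableOn g (Ioi 0) → ∫ x in Ioi 0, g x =
        (∫ x in Ioc 0 a, g x) + (∫ x in Ioc a L, g x) + (∫ x in Ioc L t, g x)
          + ∫ x in Ioi t, g x := by
      intro g hg
      have hga : IntegrableOn g (Ioi a) := hg.mono_set (Ioi_subset_Ioi ha.le)
      have hgL : IntegrableOn g (Ioi L) := hg.mono_set (Ioi_subset_Ioi hL0.le)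
      rw [hs1, setIntegral_union (Ioc_disjoint_Ioi le_rfl) measurableSet_Ioi
        (hg.mono_set Ioc_subset_Ioi_self) hga]
      rw [hs2, setIntegral_union (Ioc_disjoint_Ioi le_rfl) measurableSet_Ioi
        (hga.mono_set Ioc_subset_Ioi_self) hgL]
      rw [hs3, setIntegral_union (Ioc_disjoint_Ioi le_rfl) measurableSet_Ioi
        (hgL.mono_set Ioc_subset_Ioi_self) (hgL.mono_set (Ioi_subset_Ioi ht))]
      ring
    have hI := split f hint
    have hI2 := split _ hint2
    rw [h1, hp] at hI
    rw [hV] at hI2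
    have hintS : ∀ S : Set ℝ, S ⊆ Ioi 0 → IntegrableOn f S := fun S hS => hint.mono_set hS
    have hintS2 : ∀ S : Set ℝ, S ⊆ Ioi 0 → IntegrableOn (fun x => x ^ 2 * f x) S :=
      fun S hS => hint2.mono_set hS
    have sub1 : Ioc 0 a ⊆ Ioi (0:ℝ) := Ioc_subset_Ioi_self
    have sub2 : Ioc a L ⊆ Ioi (0:ℝ) := fun x hx => lt_trans ha hx.1
    have sub3 : Ioc L t ⊆ Ioi (0:ℝ) := fun x hx => lt_trans hL0 hx.1
    have sub4 : Ioi t ⊆ Ioi (0:ℝ) := fun x hx => lt_trans ht0 hx
    -- piece 1
    have e1 : f a * (a ^ 3 / 3) ≤ ∫ x in Ioc 0 a, x ^ 2 * f x := by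
      have : ∫ x in Ioc 0 a, x ^ 2 * f a ≤ ∫ x in Ioc 0 a, x ^ 2 * f x := by
        apply setIntegral_mono_on
        · exact ((hcont.mul continuous_const).integrableOn_Icc).mono_set Ioc_subset_Icc_self
        · exact hintS2 _ sub1
        · exact measurableSet_Ioc
        · intro x hx
          exact mul_le_mul_of_nonneg_left
            (hanti (mem_Ici.2 hx.1.le) (mem_Ici.2 ha.le) hx.2) (sq_nonneg x)
      rw [integral_mul_const, ← intervalIntegral.integral_of_le ha.le, hpoly2] at this
      linarith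
    -- piece 2
    have e2 : L ^ 2 * (∫ x in Ioc a L, f x) - f a * (L ^ 2 * (L - a) - (L ^ 3 - a ^ 3) / 3)
        ≤ ∫ x in Ioc a L, x ^ 2 * f x := by
      have : ∫ x in Ioc a L, (L ^ 2 * f x - (L ^ 2 - x ^ 2) * f a) ≤
          ∫ x in Ioc a L, x ^ 2 * f x := by
        apply setIntegral_mono_on
        · apply Integrable.sub
          · exact (hintS _ sub2).const_mul _
          · exact (((continuous_const.sub hcont).mul
              continuous_const).integrableOn_Icc).mono_set Ioc_subset_Icc_self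
        · exact hintS2 _ sub2
        · exact measurableSet_Ioc
        · intro x hx
          have hfx : f x ≤ f a := hanti (mem_Ici.2 ha.le) (mem_Ici.2 (ha.trans hx.1).le) hx.1.le
          have hxL : 0 ≤ L ^ 2 - x ^ 2 := by nlinarith [hx.1, hx.2]
          nlinarith
      have hi' : IntegrableOn (fun x : ℝ => (L ^ 2 - x ^ 2) * f a) (Ioc a L) :=
        ((by fun_prop : Continuous (fun x : ℝ => (L ^ 2 - x ^ 2) * f a)).integrableOn_Icc).mono_set
          Ioc_subset_Icc_self
      rw [integral_sub ((hintS _ sub2).const_mul _) hi',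
        integral_const_mul, integral_mul_const, integral_sub
          ((continuous_const.integrableOn_Icc (a := a) (b := L)).mono_set Ioc_subset_Icc_self)
          ((hcont.integrableOn_Icc).mono_set Ioc_subset_Icc_self),
        ← intervalIntegral.integral_of_le hL (f := fun x => x ^ 2), hpoly2] at this
      have hc : ∫ x in Ioc a L, L ^ 2 = L ^ 2 * (L - a) := by
        simp [hL, mul_comm]
      rw [hc] at this
      linarith
    -- piece 3
    have e3 : L ^ 2 * (∫ x in Ioc L t, f x) + f t * ((t ^ 3 - L ^ 3) / 3 - L ^ 2 * (t - L))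
        ≤ ∫ x in Ioc L t, x ^ 2 * f x := by
      have : ∫ x in Ioc L t, (L ^ 2 * f x + (x ^ 2 - L ^ 2) * f t) ≤
          ∫ x in Ioc L t, x ^ 2 * f x := by
        apply setIntegral_mono_on
        · apply Integrable.add
          · exact (hintS _ sub3).const_mul _
          · exact (((hcont.sub continuous_const).mul
              continuous_const).integrableOn_Icc).mono_set Ioc_subset_Icc_self
        · exact hintS2 _ sub3
        · exact measurableSet_Ioc
        · intro x hx
          have hfx : f t ≤ f x := hanti (mem_Ici.2 (hL0.trans hx.1).le) (mem_Ici.2 ht0.le) hx.2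
          have hxL : 0 ≤ x ^ 2 - L ^ 2 := by nlinarith [hx.1, hx.2]
          nlinarith
      have hi' : IntegrableOn (fun x : ℝ => (x ^ 2 - L ^ 2) * f t) (Ioc L t) :=
        ((by fun_prop : Continuous (fun x : ℝ => (x ^ 2 - L ^ 2) * f t)).integrableOn_Icc).mono_set
          Ioc_subset_Icc_self
      rw [integral_add ((hintS _ sub3).const_mul _) hi',
        integral_const_mul, integral_mul_const, integral_sub
          ((hcont.integrableOn_Icc).mono_set Ioc_subset_Icc_self)
          ((continuous_const.integrableOn_Icc (a := L) (b := t)).mono_set Ioc_subset_Icc_self),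
        ← intervalIntegral.integral_of_le ht (f := fun x => x ^ 2), hpoly2] at this
      have hc : ∫ x in Ioc L t, L ^ 2 = L ^ 2 * (t - L) := by
        simp [ht, mul_comm]
      rw [hc] at this
      linarith
    -- piece 4
    have e4 : L ^ 2 * (∫ x in Ioi t, f x) ≤ ∫ x in Ioi t, x ^ 2 * f x := by
      rw [← integral_const_mul]
      apply setIntegral_mono_on
      · exact (hintS _ sub4).const_mul _
      · exact hintS2 _ sub4
      · exact measurableSet_Ioi
      · intro x hx
        have hx' : t < x := hx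
        exact mul_le_mul_of_nonneg_right (by nlinarith) (hf0 x)
    have key : L ^ 2 * (∫ x in Ioc a L, f x) + L ^ 2 * (∫ x in Ioc L t, f x)
        + L ^ 2 * (∫ x in Ioi t, f x) = L ^ 2 * (f a * (L - a)) := by
      rw [hLp, hI]; ring
    nlinarith [e1, e2, e3, e4, key, hI2]

end Helper58.Cube
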