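import Pool.Agent.Helper58.Cube.Unimodal
import Pool.Agent.Helper58.Cube.Gauss

/-! The law of `w·y`, `y` uniform in the cube, and its density. -/

namespace Helper58.Cube

open MeasureTheory Set
open scoped ENNReal

variable {m : ℕ}

theorem lintegral_affine {a : ℝ} (ha : a ≠ 0) (c : ℝ) {F : ℝ → ℝ≥0∞} (hF : Measurable F) :
    ∫⁻ t : ℝ, F (a * t + c) = ENNReal.ofReal |a⁻¹| * ∫⁻ τ : ℝ, F τ := by
  have h1 : ∫⁻ t : ℝ, F (a * t + c) = ∫⁻ s : ℝ, F (s + c) ∂(Measure.map (a * ·) volume) := by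
    rw [lintegral_map (by fun_prop) (by fun_prop)]
  rw [h1, Real.map_volume_mul_left ha, lintegral_smul_measure, smul_eq_mul,
    lintegral_add_right_eq_self F c]

theorem lintegral_ins (i : Fin (m + 1)) {F : (Fin (m + 1) → ℝ) → ℝ≥0∞} (hF : Measurable F) :
    ∫⁻ y, F y = ∫⁻ z : Fin m → ℝ, ∫⁻ t : ℝ, F (ins i t z) := by
  have h := (volume_preserving_piFinSuccAbove (fun _ : Fin (m + 1) => ℝ) i).symm
  rw [← h.lintegral_comp hF, Measure.volume_eq_prod]
  exact lintegral_prod_symm' (μ := (volume : Measure ℝ)) (ν := (volume : Measure (Fin m → ℝ)))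
    (fun p => F ((MeasurableEquiv.piFinSuccAbove (fun _ : Fin (m + 1) => ℝ) i).symm p))
    (hF.comp h.measurable)

/-- Law of `w·y`. -/
theorem lintegral_dot (l : Fin (m + 1)) (w : Fin (m + 1) → ℝ) (hl : w l ≠ 0) {F : ℝ → ℝ≥0∞}
    (hF : Measurable F) :
    ∫⁻ y in Metric.closedBall (0 : Fin (m + 1) → ℝ) 1, F (w ⬝ᵥ y) =
      ENNReal.ofReal |(w l)⁻¹| * ∫⁻ τ : ℝ, F τ * G (del l w) |w l| τ := by
  have hdot : Measurable (fun y : Fin (m + 1) → ℝ => w ⬝ᵥ y) := (continuous_dot w).measurable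
  have hdot' : Measurable (fun y : Fin m → ℝ => del l w ⬝ᵥ y) := (continuous_dot _).measurable
  have hFd : Measurable (fun y : Fin (m + 1) → ℝ => F (w ⬝ᵥ y)) := hF.comp hdot
  rw [← lintegral_indicator Metric.isClosed_closedBall.measurableSet,
    lintegral_ins l (hFd.indicator Metric.isClosed_closedBall.measurableSet)]
  have hS2 : MeasurableSet {p : (Fin m → ℝ) × ℝ | p.1 ∈ Metric.closedBall 0 1 ∧
      |p.2 - del l w ⬝ᵥ p.1| ≤ |w l|} := by
    apply MeasurableSet.inter
    · exact (Metric.isClosed_closedBall.preimage continuous_fst).measurableSet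
    · exact (isClosed_le ((continuous_snd.sub ((continuous_dot _).comp continuous_fst)).abs)
        continuous_const).measurableSet
  have h1 : ∀ z : Fin m → ℝ, (∫⁻ t : ℝ, (Metric.closedBall (0 : Fin (m + 1) → ℝ) 1).indicator
      (fun y => F (w ⬝ᵥ y)) (ins l t z)) = ENNReal.ofReal |(w l)⁻¹| *
        ∫⁻ τ : ℝ, F τ * ({τ : ℝ | z ∈ Metric.closedBall 0 1 ∧ |τ - del l w ⬝ᵥ z| ≤ |w l|}).indicator 1 τ := by
    intro z
    have hS : MeasurableSet {τ : ℝ | z ∈ Metric.closedBall 0 1 ∧ |τ - del l w ⬝ᵥ z| ≤ |w l|} :=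
      measurable_prodMk_left hS2
    have hm1 : Measurable (fun τ : ℝ => F τ *
        ({τ : ℝ | z ∈ Metric.closedBall 0 1 ∧ |τ - del l w ⬝ᵥ z| ≤ |w l|}).indicator 1 τ) :=
      hF.mul (measurable_one.indicator hS)
    rw [← lintegral_affine hl (del l w ⬝ᵥ z) hm1]
    congr 1
    ext t
    by_cases h : ins l t z ∈ Metric.closedBall (0 : Fin (m + 1) → ℝ) 1
    · rw [indicator_of_mem h, dot_ins, indicator_of_mem, Pi.one_apply, mul_one]
      simp only [Metric.mem_closedBall, dist_zero_right, norm_ins_le l t z zero_le_one] at h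
      simp only [Set.mem_ofPred_eq, Metric.mem_closedBall, dist_zero_right, add_sub_cancel_right, abs_mul]
      exact ⟨h.2, mul_le_of_le_one_right (abs_nonneg _) h.1⟩
    · rw [indicator_of_notMem h, indicator_of_notMem, mul_zero]
      simp only [Metric.mem_closedBall, dist_zero_right, norm_ins_le l t z zero_le_one] at h
      simp only [Set.mem_ofPred_eq, Metric.mem_closedBall, dist_zero_right, add_sub_cancel_right, abs_mul]
      rintro ⟨h2, h3⟩
      exact h ⟨by
        have h4 : |w l| * |t| ≤ |w l| * 1 := by simpa using h3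
        exact le_of_mul_le_mul_left h4 (abs_pos.2 hl), h2⟩
  simp_rw [h1]
  have hmeas : Measurable (Function.uncurry fun (z : Fin m → ℝ) (τ : ℝ) => F τ *
      ({τ : ℝ | z ∈ Metric.closedBall 0 1 ∧ |τ - del l w ⬝ᵥ z| ≤ |w l|}).indicator 1 τ) := by
    apply (hF.comp measurable_snd).mul
    exact (measurable_one.indicator hS2)
  rw [lintegral_const_mul _ hmeas.lintegral_prod_right, lintegral_lintegral_swap hmeas.aemeasurable]
  congr 1
  congr 1
  ext τ
  have hS3 : MeasurableSet {z : Fin m → ℝ | z ∈ Metric.closedBall 0 1 ∧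
      |τ - del l w ⬝ᵥ z| ≤ |w l|} := measurable_prodMk_right hS2
  have hm3 : Measurable (fun z : Fin m → ℝ =>
      ({τ : ℝ | z ∈ Metric.closedBall 0 1 ∧ |τ - del l w ⬝ᵥ z| ≤ |w l|}).indicator
        (1 : ℝ → ℝ≥0∞) τ) := measurable_one.indicator hS3
  rw [lintegral_const_mul _ hm3]
  congr 1
  rw [G_sign, ← lintegral_indicator_one hS3]
  rfl

end Helper58.Cube
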