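import Pool.Agent.Helper58.Cube.Assemble

/-! The minimal perimeter of central sections of the cube. -/

namespace Helper58.Cube

open MeasureTheory Set
open scoped ENNReal

variable {m : ℕ}

theorem G_full (v : Fin m → ℝ) {b τ : ℝ} (h : |τ| + ∑ j, |v j| ≤ b) : G v b τ = 2 ^ m := by
  rw [← volume_cube, G_eq]
  congr 1
  ext z
  constructor
  · exact fun hz => hz.1
  · intro hz
    refine ⟨hz, ?_⟩
    rw [Metric.mem_closedBall, dist_zero_right] at hz
    calc |τ + v ⬝ᵥ z| ≤ |τ| + |v ⬝ᵥ z| := abs_add_le _ _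
      _ ≤ |τ| + ∑ j, |v j| := by
        gcongr
        unfold dotProduct
        refine (Finset.abs_sum_le_sum_abs _ _).trans ?_
        apply Finset.sum_le_sum
        intro j _
        rw [abs_mul]
        exact mul_le_of_le_one_right (abs_nonneg _) ((norm_le_pi_norm z j).trans hz)
      _ ≤ b := h

theorem sum_sigma_ge {n : ℕ} (w : Fin n → ℝ) {a s : ℝ} (ha0 : 0 < a)
    (has : a ^ 2 + s ^ 2 = 1) (hw : ∑ j, w j ^ 2 = s ^ 2) :
    (n : ℝ) - (1 - a) ≤ ∑ i, √(1 - w i ^ 2) := by
  have hwsq2 : ∀ j, w j ^ 2 ≤ s ^ 2 := by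
    intro j
    rw [← hw]
    exact Finset.single_le_sum (f := fun j => w j ^ 2) (fun i _ => sq_nonneg _) (Finset.mem_univ j)
  have h1 : ∀ i, 1 - √(1 - w i ^ 2) ≤ w i ^ 2 / (1 + a) := by
    intro i
    have e0 : 0 ≤ 1 - w i ^ 2 := by nlinarith [hwsq2 i]
    have e1 : √(1 - w i ^ 2) ^ 2 = 1 - w i ^ 2 := Real.sq_sqrt e0
    have e2 : a ≤ √(1 - w i ^ 2) := Real.le_sqrt_of_sq_le (by nlinarith [hwsq2 i])
    have e3 : √(1 - w i ^ 2) ≤ 1 := Real.sqrt_le_one.2 (by nlinarith [sq_nonneg (w i)])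
    rw [le_div_iff₀ (by linarith)]
    nlinarith
  have h2 : ∑ i, (1 - √(1 - w i ^ 2)) ≤ ∑ i, w i ^ 2 / (1 + a) := Finset.sum_le_sum fun i _ => h1 i
  rw [← Finset.sum_div, hw, Finset.sum_sub_distrib] at h2
  have e : s ^ 2 / (1 + a) = 1 - a := by
    rw [div_eq_iff (by linarith)]; linarith
  rw [e] at h2
  simp only [Finset.sum_const, Finset.card_univ, Fintype.card_fin, nsmul_eq_mul, mul_one] at h2
  linarith

theorem term_eq {x : ℝ} (hx : 0 ≤ x) (v : Fin m → ℝ) (b τ : ℝ) :
    2 * ENNReal.ofReal x * G v b τ = ENNReal.ofReal (2 * x * (G v b τ).toReal) := by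
  rw [ENNReal.ofReal_mul (by positivity), ENNReal.ofReal_mul (by norm_num),
    ENNReal.ofReal_toReal (G_ne_top _ _ _)]
  simp

/-- One dimensional slabs. -/
theorem G_one (v : Fin 1 → ℝ) {b τ : ℝ} (hv : v 0 ≠ 0) (h1 : |v 0| ≤ b + |τ|)
    (h2 : |τ| - b ≤ |v 0|) (h3 : b - |τ| ≤ |v 0|) :
    (b - |τ| + |v 0|) / |v 0| ≤ (G v b τ).toReal := by
  have hc : 0 < |v 0| := abs_pos.2 hv
  rw [← G_abs]
  set τ' := |τ| with hτ
  have hτ0 : 0 ≤ τ' := abs_nonneg _
  have hG0 : ∀ x : ℝ, |x| ≤ b → G (del 0 v) b x = 1 := by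
    intro x hx
    have := G_full (del 0 v) (b := b) (τ := x) (by simpa using hx)
    simpa using this
  -- the interval
  set e : ℝ := (b - τ') / |v 0| with he
  have he1 : e ≤ 1 := (div_le_one hc).2 h3
  have he2 : -1 ≤ e := by rw [he, le_div_iff₀ hc]; linarith
  have hval : (b - τ' + |v 0|) / |v 0| = e + 1 := by rw [he]; field_simp
  rw [hval]
  have key : ENNReal.ofReal (e + 1) ≤ G v b τ' := by
    rw [G_rec 0]
    rcases lt_or_gt_of_ne hv with hneg | hpos
    · have habs : |v 0| = - v 0 := abs_of_neg hneg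
      calc ENNReal.ofReal (e + 1) = ∫⁻ t in Icc (-e) 1, 1 := by
            rw [setLIntegral_one, Real.volume_Icc]; congr 1; ring
        _ ≤ ∫⁻ t in Icc (-e) 1, G (del 0 v) b (τ' + v 0 * t) := by
            apply setLIntegral_mono' measurableSet_Icc
            intro t ht
            rw [hG0]
            have h4 : v 0 * t ≤ b - τ' := by
              have : |v 0| * (-t) ≤ |v 0| * e := mul_le_mul_of_nonneg_left (by linarith [ht.1]) hc.le
              rw [he] at this
              rw [mul_div_cancel₀ _ hc.ne', habs] at this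
              linarith
            have h5 : -|v 0| ≤ v 0 * t := by
              rw [habs]
              nlinarith [ht.2]
            rw [abs_le]; constructor <;> linarith
        _ ≤ ∫⁻ t in Icc (-1) 1, G (del 0 v) b (τ' + v 0 * t) := by
            apply lintegral_mono_set
            exact Icc_subset_Icc (by linarith) le_rfl
    · have habs : |v 0| = v 0 := abs_of_pos hpos
      calc ENNReal.ofReal (e + 1) = ∫⁻ t in Icc (-1) e, 1 := by
            rw [setLIntegral_one, Real.volume_Icc]; congr 1; ring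
        _ ≤ ∫⁻ t in Icc (-1) e, G (del 0 v) b (τ' + v 0 * t) := by
            apply setLIntegral_mono' measurableSet_Icc
            intro t ht
            rw [hG0]
            have h4 : v 0 * t ≤ b - τ' := by
              have : |v 0| * t ≤ |v 0| * e := mul_le_mul_of_nonneg_left (by linarith [ht.2]) hc.le
              rw [he] at this
              rw [mul_div_cancel₀ _ hc.ne', habs] at this
              linarith
            have h5 : -|v 0| ≤ v 0 * t := by
              rw [habs]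
              nlinarith [ht.1]
            rw [abs_le]; constructor <;> linarith
        _ ≤ ∫⁻ t in Icc (-1) 1, G (del 0 v) b (τ' + v 0 * t) := by
            apply lintegral_mono_set
            exact Icc_subset_Icc le_rfl he1
  have := ENNReal.toReal_mono (G_ne_top _ _ _) key
  rwa [ENNReal.toReal_ofReal (by linarith)] at this

theorem hexagon {a b c s1 s2 s3 : ℝ} (ha : 0 < a) (hb : 0 < b) (hc : 0 < c)
    (h1 : 0 ≤ a + c - b) (h2 : 0 ≤ a + b - c) (h3 : 0 ≤ b + c - a)
    (hs1 : 0 ≤ s1) (hs2 : 0 ≤ s2) (hs3 : 0 ≤ s3)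
    (e1 : s1 ^ 2 = a ^ 2 + c ^ 2) (e2 : s2 ^ 2 = a ^ 2 + b ^ 2) (e3 : s3 ^ 2 = b ^ 2 + c ^ 2) :
    8 < 2 * (s1 / a) * ((a - b + c) / c) + 2 * (s2 / a) * ((a - c + b) / b)
      + 2 * (s3 / b) * ((b - a + c) / c) := by
  have f1 : 0.7 * (a + c) ≤ s1 := by
    apply le_of_sq_le_sq _ hs1
    nlinarith [sq_nonneg (a - c)]
  have f2 : 0.7 * (a + b) ≤ s2 := by
    apply le_of_sq_le_sq _ hs2
    nlinarith [sq_nonneg (a - b)]
  have f3 : 0.7 * (b + c) ≤ s3 := by
    apply le_of_sq_le_sq _ hs3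
    nlinarith [sq_nonneg (b - c)]
  have g1 : 0.7 * (a + c) * (b * (a + c - b)) ≤ s1 * (b * (a + c - b)) :=
    mul_le_mul_of_nonneg_right f1 (by positivity)
  have g2 : 0.7 * (a + b) * (c * (a + b - c)) ≤ s2 * (c * (a + b - c)) :=
    mul_le_mul_of_nonneg_right f2 (by positivity)
  have g3 : 0.7 * (b + c) * (a * (b + c - a)) ≤ s3 * (a * (b + c - a)) :=
    mul_le_mul_of_nonneg_right f3 (by positivity)
  have e : 2 * (s1 / a) * ((a - b + c) / c) + 2 * (s2 / a) * ((a - c + b) / b)
      + 2 * (s3 / b) * ((b - a + c) / c) = 2 * (s1 * (b * (a + c - b)) + s2 * (c * (a + b - c)) +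
        s3 * (a * (b + c - a))) / (a * b * c) := by
    field_simp; ring
  rw [e, lt_div_iff₀ (by positivity)]
  have : 0 < a * b * c := by positivity
  nlinarith

end Helper58.Cube
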