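import Pool.Agent.Helper58.Cube.Defs

/-! Fubini type formulas for slabs of the cube `[-1,1]^m`. -/

namespace Helper58.Cube

open MeasureTheory Set
open scoped ENNReal

variable {m : ℕ}

/-- Coordinate insertion. -/
def ins (i : Fin (m + 1)) (t : ℝ) (z : Fin m → ℝ) : Fin (m + 1) → ℝ :=
  Fin.insertNth (α := fun _ => ℝ) i t z

@[simp] theorem ins_same (i : Fin (m + 1)) (t : ℝ) (z : Fin m → ℝ) : ins i t z i = t := by
  simp [ins]

@[simp] theorem ins_succAbove (i : Fin (m + 1)) (t : ℝ) (z : Fin m → ℝ) (j : Fin m) :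
    ins i t z (i.succAbove j) = z j := by
  simp [ins]

/-- Deleting the `i`-th weight. -/
def del (i : Fin (m + 1)) (w : Fin (m + 1) → ℝ) : Fin m → ℝ := fun j => w (i.succAbove j)

@[simp] theorem del_apply (i : Fin (m + 1)) (w : Fin (m + 1) → ℝ) (j : Fin m) :
    del i w j = w (i.succAbove j) := rfl

theorem dot_ins (i : Fin (m + 1)) (w : Fin (m + 1) → ℝ) (t : ℝ) (z : Fin m → ℝ) :
    w ⬝ᵥ ins i t z = w i * t + del i w ⬝ᵥ z := by
  simp [dotProduct, Fin.sum_univ_succAbove _ i]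

theorem norm_ins_le (i : Fin (m + 1)) (t : ℝ) (z : Fin m → ℝ) {r : ℝ} (hr : 0 ≤ r) :
    ‖ins i t z‖ ≤ r ↔ |t| ≤ r ∧ ‖z‖ ≤ r := by
  rw [pi_norm_le_iff_of_nonneg hr, pi_norm_le_iff_of_nonneg hr, Fin.forall_iff_succAbove i]
  simp

theorem measurable_ins (i : Fin (m + 1)) :
    Measurable (fun p : ℝ × (Fin m → ℝ) => ins i p.1 p.2) :=
  (MeasurableEquiv.piFinSuccAbove (fun _ => ℝ) i).symm.measurable

theorem volume_eq_lintegral (i : Fin (m + 1)) {S : Set (Fin (m + 1) → ℝ)} (hS : MeasurableSet S) :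
    volume S = ∫⁻ t : ℝ, volume {z : Fin m → ℝ | ins i t z ∈ S} := by
  have h := (volume_preserving_piFinSuccAbove (fun _ : Fin (m + 1) => ℝ) i).symm
  rw [← h.measure_preimage hS.nullMeasurableSet, Measure.volume_eq_prod,
    Measure.prod_apply (h.measurable hS)]
  rfl

theorem volume_eq_lintegral' (i : Fin (m + 1)) {S : Set (Fin (m + 1) → ℝ)}
    (hS : MeasurableSet S) :
    volume S = ∫⁻ z : Fin m → ℝ, volume {t : ℝ | ins i t z ∈ S} := by
  have h := (volume_preserving_piFinSuccAbove (fun _ : Fin (m + 1) => ℝ) i).symm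
  rw [← h.measure_preimage hS.nullMeasurableSet, Measure.volume_eq_prod,
    Measure.prod_apply_symm (h.measurable hS)]
  rfl

/-- the slab set -/
def slab (v : Fin m → ℝ) (b τ : ℝ) : Set (Fin m → ℝ) :=
  {z : Fin m → ℝ | z ∈ Metric.closedBall 0 1 ∧ |τ + v ⬝ᵥ z| ≤ b}

theorem G_eq (v : Fin m → ℝ) (b τ : ℝ) : G v b τ = volume (slab v b τ) := rfl

theorem continuous_dot (v : Fin m → ℝ) : Continuous (fun z : Fin m → ℝ => v ⬝ᵥ z) := by
  unfold dotProduct
  fun_prop

theorem isClosed_slab (v : Fin m → ℝ) (b τ : ℝ) : IsClosed (slab v b τ) := by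
  apply IsClosed.inter Metric.isClosed_closedBall
  exact isClosed_le ((continuous_const.add (continuous_dot v)).abs) continuous_const

theorem measurableSet_slab (v : Fin m → ℝ) (b τ : ℝ) : MeasurableSet (slab v b τ) :=
  (isClosed_slab v b τ).measurableSet

theorem volume_cube : volume (Metric.closedBall (0 : Fin m → ℝ) 1) = 2 ^ m := by
  rw [Real.volume_pi_closedBall _ zero_le_one]
  simp

theorem G_le (v : Fin m → ℝ) (b τ : ℝ) : G v b τ ≤ 2 ^ m := by
  rw [G_eq, ← volume_cube]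
  exact measure_mono fun z hz => hz.1

theorem G_ne_top (v : Fin m → ℝ) (b τ : ℝ) : G v b τ ≠ ⊤ :=
  ne_top_of_le_ne_top (by simp) (G_le v b τ)

theorem G_neg (v : Fin m → ℝ) (b τ : ℝ) : G v b (-τ) = G v b τ := by
  rw [G_eq, G_eq]
  have : slab v b (-τ) = -(slab v b τ) := by
    ext z
    simp only [slab, mem_setOf_eq, mem_neg, Metric.mem_closedBall, dist_zero_right, norm_neg,
      dotProduct_neg]
    rw [← abs_neg (-τ + v ⬝ᵥ z)]
    ring_nf
  rw [this, Measure.measure_neg]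

theorem G_sign (v : Fin m → ℝ) (b τ : ℝ) :
    G v b τ = volume {z : Fin m → ℝ | z ∈ Metric.closedBall 0 1 ∧ |τ - v ⬝ᵥ z| ≤ b} := by
  rw [← G_neg, G_eq]
  congr 1
  ext z
  simp only [slab, mem_setOf_eq]
  rw [← abs_neg (-τ + v ⬝ᵥ z)]
  ring_nf

theorem G_rec (i : Fin (m + 1)) (w : Fin (m + 1) → ℝ) (b τ : ℝ) :
    G w b τ = ∫⁻ t in Icc (-1 : ℝ) 1, G (del i w) b (τ + w i * t) := by
  rw [G_eq, volume_eq_lintegral i (measurableSet_slab _ _ _), ← lintegral_indicator measurableSet_Icc]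
  congr 1
  ext t
  by_cases ht : t ∈ Icc (-1 : ℝ) 1
  · rw [indicator_of_mem ht, G_eq]
    congr 1
    ext z
    simp only [slab, mem_setOf_eq, Metric.mem_closedBall, dist_zero_right,
      norm_ins_le i t z zero_le_one, dot_ins]
    rw [abs_le (a := t)]
    simp only [mem_Icc] at ht
    constructor
    · rintro ⟨⟨_, h1⟩, h2⟩
      exact ⟨h1, by rw [add_assoc]; exact h2⟩
    · rintro ⟨h1, h2⟩
      exact ⟨⟨ht, h1⟩, by rw [add_assoc] at h2; exact h2⟩
  · rw [indicator_of_notMem ht]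
    convert measure_empty (μ := (volume : Measure (Fin m → ℝ)))
    ext z
    simp only [slab, mem_setOf_eq, Metric.mem_closedBall, dist_zero_right,
      norm_ins_le i t z zero_le_one, mem_empty_iff_false, iff_false]
    rintro ⟨⟨h1, _⟩, _⟩
    rw [abs_le] at h1
    exact ht h1

theorem measurable_G (v : Fin m → ℝ) (b : ℝ) : Measurable (fun τ => G v b τ) := by
  have hS : MeasurableSet {p : ℝ × (Fin m → ℝ) | p.2 ∈ Metric.closedBall 0 1 ∧
      |p.1 + v ⬝ᵥ p.2| ≤ b} := by
    apply IsClosed.measurableSet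
    apply IsClosed.inter
    · exact Metric.isClosed_closedBall.preimage continuous_snd
    · exact isClosed_le ((continuous_fst.add ((continuous_dot v).comp continuous_snd)).abs)
        continuous_const
  exact measurable_measure_prodMk_left hS

end Helper58.Cube
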