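import Pool.Agent.Helper58.Cube.Final

/-! The lower bound for the perimeter. -/

namespace Helper58.Cube

open MeasureTheory Set
open scoped ENNReal

variable {m : ℕ}

theorem norm_sq_split (u : EuclideanSpace ℝ (Fin (m + 2))) (hu : ‖u‖ = 1) (k : Fin (m + 2)) :
    u k ^ 2 + ∑ j, u (k.succAbove j) ^ 2 = 1 := by
  have := EuclideanSpace.norm_sq_eq u
  rw [hu] at this
  simp only [one_pow, Real.norm_eq_abs, sq_abs] at this
  rw [Fin.sum_univ_succAbove _ k] at this
  exact this.symm

theorem cast_eq : (((m + 1) * 2 ^ (m + 1) : ℕ) : ℝ≥0∞) =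
    ENNReal.ofReal (((m : ℝ) + 1) * 2 ^ (m + 1)) := by
  rw [ENNReal.ofReal_mul (by positivity)]
  rw [show ((m : ℝ) + 1) = ((m + 1 : ℕ) : ℝ) by push_cast; ring, ENNReal.ofReal_natCast,
    ENNReal.ofReal_pow (by norm_num)]
  push_cast
  simp

theorem perimeter_gt (hm : 1 ≤ m) (u : EuclideanSpace ℝ (Fin (m + 2))) (hu : ‖u‖ = 1)
    (hlt : ∀ k, |u k| < 1) : (((m + 1) * 2 ^ (m + 1) : ℕ) : ℝ≥0∞) < perimeter u := by
  obtain ⟨k, hk⟩ := Finite.exists_max (fun i => |u i|)
  set a := |u k| with ha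
  set w : Fin (m + 1) → ℝ := fun j => u (k.succAbove j) with hwdef
  have hwa : ∀ j, |w j| ≤ a := fun j => hk _
  have hsum := norm_sq_split u hu k
  have ha1 : a < 1 := hlt k
  have ha0 : 0 < a := by
    rcases (abs_nonneg (u k)).eq_or_lt with h0 | h0
    · exfalso
      have hz : ∀ i, u i = 0 := fun i => abs_eq_zero.1 (le_antisymm ((hk i).trans h0.ge) (abs_nonneg _))
      rw [hz k] at hsum
      simp [hz] at hsum
    · exact h0
  have huk : u k ≠ 0 := abs_pos.1 ha0
  set s := √(1 - u k ^ 2) with hs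
  have hsq : s ^ 2 = 1 - u k ^ 2 := Real.sq_sqrt (by
    have : u k ^ 2 = a ^ 2 := (sq_abs _).symm
    nlinarith)
  have haksq : a ^ 2 = u k ^ 2 := sq_abs _
  have has : a ^ 2 + s ^ 2 = 1 := by linarith
  have hs0 : 0 < s := by
    apply Real.sqrt_pos_of_pos
    nlinarith
  have hw : ∑ j, w j ^ 2 = s ^ 2 := by linarith
  rw [cast_eq]
  have h2m : (0 : ℝ) < 2 ^ m := by positivity
  by_cases hA : ∑ j, |w j| ≤ a
  · -- direct case
    refine lt_of_lt_of_le ?_ (Geom.perimeter_ge_one u hu k huk w (fun j => rfl))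
    have hG : ∀ i, G (fun j => w (i.succAbove j)) |u k| (w i) = 2 ^ m := by
      intro i
      apply G_full
      rw [Fin.sum_univ_succAbove _ i] at hA
      exact hA
    have e1 : ∑ i, 2 * ENNReal.ofReal (√(1 - w i ^ 2) / |u k|) *
      G (fun j => w (i.succAbove j)) |u k| (w i) =
        ENNReal.ofReal (∑ i, 2 * (√(1 - w i ^ 2) / a) * 2 ^ m) := by
      rw [ENNReal.ofReal_sum_of_nonneg (fun i _ => by positivity)]
      apply Finset.sum_congr rfl
      intro i _
      rw [term_eq (by positivity), hG i]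
      simp [ha]
    rw [e1, ENNReal.ofReal_lt_ofReal_iff_of_nonneg (by positivity), ← Finset.sum_mul,
      ← Finset.mul_sum, ← Finset.sum_div]
    have h1 := sum_sigma_ge w ha0 has hw
    push_cast at h1
    have hm' : (1 : ℝ) ≤ m := by exact_mod_cast hm
    have h2 : ((m : ℝ) + 1) * a < ∑ i, √(1 - w i ^ 2) := by nlinarith
    have h3 : (m : ℝ) + 1 < (∑ i, √(1 - w i ^ 2)) / a := by rwa [lt_div_iff₀ ha0]
    rw [pow_succ]
    nlinarith
  · push Not at hA
    -- there are two nonzero weights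
    obtain ⟨l, hl⟩ : ∃ l, w l ≠ 0 := by
      by_contra hc
      push Not at hc
      simp [hc] at hA
      linarith
    have hl2 : ∃ j, w (l.succAbove j) ≠ 0 := by
      by_contra hc
      push Not at hc
      rw [Fin.sum_univ_succAbove _ l] at hA
      simp [hc] at hA
      exact absurd (hwa l) (not_le.2 hA)
    refine lt_of_lt_of_le ?_ (Geom.perimeter_ge_two u hu k huk w (fun j => rfl) l hl hl2)
    have e1 : ∑ i, 2 * ENNReal.ofReal (√(1 - w i ^ 2) / |u k|) *
      G (fun j => w (i.succAbove j)) |u k| (w i)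
      + 2 * ENNReal.ofReal (√(1 - u k ^ 2) / |w l|) *
        G (fun j => w (l.succAbove j)) |w l| (u k) =
        ENNReal.ofReal ((∑ i, 2 * (√(1 - w i ^ 2) / a) *
          (G (del i w) a (w i)).toReal) + 2 * (s / |w l|) * (G (del l w) |w l| a).toReal) := by
      rw [ENNReal.ofReal_add (Finset.sum_nonneg fun i _ => by positivity) (by positivity),
        ENNReal.ofReal_sum_of_nonneg (fun i _ => by positivity), ← term_eq (by positivity),
        ha, G_abs]
      congr 1
      apply Finset.sum_congr rfl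
      intro i _
      rw [← term_eq (by positivity)]
      rfl
    rw [e1, ENNReal.ofReal_lt_ofReal_iff_of_nonneg (by positivity)]
    rcases Nat.lt_or_ge 1 m with hm2 | hm2
    · have h1 := analytic (by omega) w ha0 ha1 hs0 has hw hwa l hl hl2
      push_cast at h1
      unfold dens at h1
      have e2 : ∑ i, 2 * (√(1 - w i ^ 2) / a) * (G (del i w) a (w i)).toReal =
          2 ^ (m + 1) * ((∑ i, √(1 - w i ^ 2) * (((2 : ℝ) ^ m)⁻¹ * (G (del i w) a (w i)).toReal)) / a) := by
        rw [Finset.sum_div, Finset.mul_sum]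
        apply Finset.sum_congr rfl
        intro i _
        field_simp
        ring
      have e3 : 2 * (s / |w l|) * (G (del l w) |w l| a).toReal = 2 ^ (m + 1) *
          (s * (|(w l)⁻¹| * ((2 : ℝ) ^ m)⁻¹ * (G (del l w) |w l| a).toReal)) := by
        rw [abs_inv, pow_succ]
        field_simp
      rw [e2, e3, ← mul_add, mul_comm]
      exact mul_lt_mul_of_pos_left h1 (by positivity)
    · have hm1 : m = 1 := by omega
      subst hm1
      -- all sums are over `Fin 2`
      have hw01 : w 0 ≠ 0 ∧ w 1 ≠ 0 := by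
        obtain ⟨j, hj⟩ := hl2
        fin_cases j
        fin_cases l
        · exact ⟨hl, hj⟩
        · exact ⟨hj, hl⟩
      have hsum2 : |w 0| + |w 1| > a := by
        rw [Fin.sum_univ_two] at hA; exact hA
      have hw2 : w 0 ^ 2 + w 1 ^ 2 = s ^ 2 := by rw [← hw, Fin.sum_univ_two]
      have d0 : del (0 : Fin 2) w 0 = w 1 := rfl
      have d1 : del (1 : Fin 2) w 0 = w 0 := rfl
      have p0 : 0 < |w 0| := abs_pos.2 hw01.1
      have p1 : 0 < |w 1| := abs_pos.2 hw01.2
      have q0 := hwa 0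
      have q1 := hwa 1
      have g0 := G_one (del (0 : Fin 2) w) (b := a) (τ := w 0) (by rw [d0]; exact hw01.2)
        (by rw [d0]; linarith) (by rw [d0]; linarith) (by rw [d0]; linarith)
      have g1 := G_one (del (1 : Fin 2) w) (b := a) (τ := w 1) (by rw [d1]; exact hw01.1)
        (by rw [d1]; linarith) (by rw [d1]; linarith) (by rw [d1]; linarith)
      rw [d0] at g0
      rw [d1] at g1
      have sq0 : √(1 - w 0 ^ 2) ^ 2 = a ^ 2 + |w 1| ^ 2 := by
        rw [Real.sq_sqrt (by nlinarith [sq_nonneg (w 1), sq_nonneg a]), sq_abs (w 1)]; linarith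
      have sq1 : √(1 - w 1 ^ 2) ^ 2 = a ^ 2 + |w 0| ^ 2 := by
        rw [Real.sq_sqrt (by nlinarith [sq_nonneg (w 0), sq_nonneg a]), sq_abs (w 0)]; linarith
      have sq2 : s ^ 2 = |w 0| ^ 2 + |w 1| ^ 2 := by rw [sq_abs, sq_abs]; linarith
      have hex := hexagon (a := a) (b := |w 0|) (c := |w 1|) ha0 p0 p1 (by linarith) (by linarith)
        (by linarith) (Real.sqrt_nonneg (1 - w 0 ^ 2)) (Real.sqrt_nonneg (1 - w 1 ^ 2)) hs0.le
        sq0 sq1 sq2
      rw [Fin.sum_univ_two]
      have t0 : 2 * (√(1 - w 0 ^ 2) / a) * ((a - |w 0| + |w 1|) / |w 1|) ≤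
          2 * (√(1 - w 0 ^ 2) / a) * (G (del 0 w) a (w 0)).toReal := by gcongr
      have t1 : 2 * (√(1 - w 1 ^ 2) / a) * ((a - |w 1| + |w 0|) / |w 0|) ≤
          2 * (√(1 - w 1 ^ 2) / a) * (G (del 1 w) a (w 1)).toReal := by gcongr
      have t2 : 2 * (s / |w 0|) * ((|w 0| - a + |w 1|) / |w 1|) ≤
          2 * (s / |w l|) * (G (del l w) |w l| a).toReal := by
        have habs : |a| = a := abs_of_pos ha0
        fin_cases l
        · have := G_one (del (0 : Fin 2) w) (b := |w 0|) (τ := a) (by rw [d0]; exact hw01.2)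
            (by rw [d0, habs]; linarith) (by rw [d0, habs]; linarith) (by rw [d0, habs]; linarith)
          rw [d0, habs] at this
          change _ ≤ 2 * (s / |w 0|) * (G (del 0 w) |w 0| a).toReal
          gcongr
        · have := G_one (del (1 : Fin 2) w) (b := |w 1|) (τ := a) (by rw [d1]; exact hw01.1)
            (by rw [d1, habs]; linarith) (by rw [d1, habs]; linarith) (by rw [d1, habs]; linarith)
          rw [d1, habs] at this
          change _ ≤ 2 * (s / |w 1|) * (G (del 1 w) |w 1| a).toReal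
          have e : 2 * (s / |w 0|) * ((|w 0| - a + |w 1|) / |w 1|) =
              2 * (s / |w 1|) * ((|w 1| - a + |w 0|) / |w 0|) := by field_simp; ring
          rw [e]
          gcongr
      norm_num
      linarith

theorem perimeter_ge_coord (u : EuclideanSpace ℝ (Fin (m + 2))) (hu : ‖u‖ = 1)
    (k : Fin (m + 2)) (hk : |u k| = 1) :
    (((m + 1) * 2 ^ (m + 1) : ℕ) : ℝ≥0∞) ≤ perimeter u := by
  have hsum := norm_sq_split u hu k
  have huk : u k ≠ 0 := by
    intro h; rw [h, abs_zero] at hk; exact zero_ne_one hk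
  have hsq : u k ^ 2 = 1 := by rw [← sq_abs, hk]; norm_num
  have hz : ∀ j, u (k.succAbove j) = 0 := by
    have h0 : ∑ j, u (k.succAbove j) ^ 2 = 0 := by linarith
    intro j
    have := (Finset.sum_eq_zero_iff_of_nonneg (fun j _ => sq_nonneg (u (k.succAbove j)))).1 h0 j
      (Finset.mem_univ j)
    exact pow_eq_zero_iff (two_ne_zero) |>.1 this
  refine le_trans ?_ (Geom.perimeter_ge_one u hu k huk (fun j => u (k.succAbove j)) (fun j => rfl))
  have hG : ∀ i : Fin (m + 1), G (fun j => u (k.succAbove (i.succAbove j))) |u k|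
      (u (k.succAbove i)) = 2 ^ m := by
    intro i
    apply G_full
    simp [hz, hk]
  have e1 : ∀ i : Fin (m + 1), 2 * ENNReal.ofReal (√(1 - u (k.succAbove i) ^ 2) / |u k|) *
      G (fun j => u (k.succAbove (i.succAbove j))) |u k| (u (k.succAbove i)) = 2 * 2 ^ m := by
    intro i
    rw [hG i, hz i, hk]
    simp
  rw [Finset.sum_congr rfl (fun i _ => e1 i)]
  simp only [Finset.sum_const, Finset.card_univ, Fintype.card_fin, nsmul_eq_mul]
  push_cast
  rw [pow_succ]
  apply le_of_eq
  ring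

end Helper58.Cube
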