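import Pool.Agent.Helper58.Cube.Density

/-! The normalised density, its mass and second moment. -/

namespace Helper58.Cube

open MeasureTheory Set
open scoped ENNReal

variable {m : ℕ}

/-- Twice the density of `w·y`, `y` uniform in `[-1,1]^(m+1)`. -/
noncomputable def dens (l : Fin (m + 1)) (w : Fin (m + 1) → ℝ) (τ : ℝ) : ℝ :=
  |(w l)⁻¹| * ((2 : ℝ) ^ m)⁻¹ * (G (del l w) |w l| τ).toReal

theorem dens_nonneg (l : Fin (m + 1)) (w : Fin (m + 1) → ℝ) (τ : ℝ) : 0 ≤ dens l w τ := by
  unfold dens; positivity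

theorem dens_mono (l : Fin (m + 1)) (w : Fin (m + 1) → ℝ) {x y : ℝ} (h : |x| ≤ |y|) :
    dens l w y ≤ dens l w x := by
  unfold dens
  exact mul_le_mul_of_nonneg_left (G_mono _ _ _ _ h) (by positivity)

theorem measurable_dens (l : Fin (m + 1)) (w : Fin (m + 1) → ℝ) : Measurable (dens l w) :=
  ((measurable_G _ _).ennreal_toReal).const_mul _

theorem dens_integral (l : Fin (m + 1)) (w : Fin (m + 1) → ℝ) (hl : w l ≠ 0) {F : ℝ → ℝ}
    (hF : Measurable F) (h0 : ∀ x, 0 ≤ F x) (hev : ∀ x, F |x| = F x)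
    (hfin : IntegrableOn (fun y : Fin (m + 1) → ℝ => F (w ⬝ᵥ y)) (Metric.closedBall 0 1)) :
    IntegrableOn (fun τ => F τ * dens l w τ) (Ioi 0) ∧
      ∫ y in Metric.closedBall (0 : Fin (m + 1) → ℝ) 1, F (w ⬝ᵥ y) =
        2 ^ (m + 1) * ∫ τ in Ioi (0 : ℝ), F τ * dens l w τ := by
  have hdot : Measurable (fun y : Fin (m + 1) → ℝ => w ⬝ᵥ y) := (continuous_dot w).measurable
  have hmF : Measurable (fun τ => F τ * dens l w τ) := hF.mul (measurable_dens l w)
  have hpos : ∀ τ, 0 ≤ F τ * dens l w τ := fun τ => mul_nonneg (h0 τ) (dens_nonneg l w τ)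
  -- the lintegral identity
  have key : ∫⁻ y in Metric.closedBall (0 : Fin (m + 1) → ℝ) 1, ENNReal.ofReal (F (w ⬝ᵥ y)) =
      2 ^ m * ∫⁻ τ : ℝ, ENNReal.ofReal (F τ * dens l w τ) := by
    rw [lintegral_dot l w hl hF.ennreal_ofReal, ← lintegral_const_mul' _ _ (by simp),
      ← lintegral_const_mul' _ _ (by simp)]
    congr 1
    ext τ
    have hG : G (del l w) |w l| τ = ENNReal.ofReal (G (del l w) |w l| τ).toReal :=
      (ENNReal.ofReal_toReal (G_ne_top _ _ _)).symm
    rw [hG, ← ENNReal.ofReal_mul (h0 τ), ← ENNReal.ofReal_mul (abs_nonneg _)]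
    have h2 : (2 : ℝ≥0∞) ^ m = ENNReal.ofReal (2 ^ m) := by
      rw [ENNReal.ofReal_pow (by norm_num)]; simp
    rw [h2, ← ENNReal.ofReal_mul (by positivity)]
    congr 1
    unfold dens
    field_simp
  have hfin' : ∫⁻ y in Metric.closedBall (0 : Fin (m + 1) → ℝ) 1, ENNReal.ofReal (F (w ⬝ᵥ y)) ≠ ⊤ := by
    have := hfin.lintegral_lt_top
    exact this.ne
  have hfin2 : ∫⁻ τ : ℝ, ENNReal.ofReal (F τ * dens l w τ) ≠ ⊤ := by
    intro h
    rw [key, h] at hfin'
    exact hfin' (ENNReal.mul_top (by positivity))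
  have hint : Integrable (fun τ => F τ * dens l w τ) := by
    refine ⟨hmF.aestronglyMeasurable, ?_⟩
    rw [hasFiniteIntegral_iff_ofReal (Filter.Eventually.of_forall hpos)]
    exact lt_top_iff_ne_top.2 hfin2
  refine ⟨hint.integrableOn, ?_⟩
  have e1 : ∫ y in Metric.closedBall (0 : Fin (m + 1) → ℝ) 1, F (w ⬝ᵥ y) =
      2 ^ m * ∫ τ : ℝ, F τ * dens l w τ := by
    rw [integral_eq_lintegral_of_nonneg_ae (Filter.Eventually.of_forall fun y => h0 _)
      (hF.comp hdot).aestronglyMeasurable,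
      integral_eq_lintegral_of_nonneg_ae (Filter.Eventually.of_forall hpos)
      hmF.aestronglyMeasurable, key]
    simp
  have e2 : ∫ τ : ℝ, F τ * dens l w τ = 2 * ∫ τ in Ioi (0 : ℝ), F τ * dens l w τ := by
    rw [← integral_comp_abs (f := fun τ => F τ * dens l w τ)]
    congr 1
    ext τ
    rw [hev]
    congr 1
    exact le_antisymm (dens_mono l w (by simp)) (dens_mono l w (by simp))
  rw [e1, e2]; ring

theorem dens_one (l : Fin (m + 1)) (w : Fin (m + 1) → ℝ) (hl : w l ≠ 0) :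
    IntegrableOn (dens l w) (Ioi 0) ∧ ∫ τ in Ioi (0 : ℝ), dens l w τ = 1 := by
  have h := dens_integral l w hl (F := fun _ => 1) measurable_const (fun _ => zero_le_one)
    (fun _ => rfl) (integrableOn_const (by rw [volume_cube]; simp) (by simp))
  simp only [one_mul] at h
  refine ⟨h.1, ?_⟩
  have h2 := h.2
  simp only [integral_const, MeasurableSet.univ, measureReal_restrict_apply, univ_inter,
    smul_eq_mul, mul_one] at h2
  rw [measureReal_def, volume_cube] at h2
  simp only [ENNReal.toReal_pow, ENNReal.toReal_ofNat] at h2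
  have h3 : (2 : ℝ) ^ (m + 1) ≠ 0 := by positivity
  exact (mul_left_cancel₀ h3 (by rw [mul_one]; exact h2)).symm

theorem dens_mass (l : Fin (m + 1)) (w : Fin (m + 1) → ℝ) (hl : w l ≠ 0) (a : ℝ) :
    ∫ τ in Ioc (0 : ℝ) a, dens l w τ = ((2 : ℝ) ^ (m + 1))⁻¹ * (G w a 0).toReal := by
  have hmF : Measurable (fun x : ℝ => (Icc (-a) a).indicator (fun _ => (1 : ℝ)) x) :=
    measurable_const.indicator measurableSet_Icc
  have hbd : ∀ x : ℝ, 0 ≤ (Icc (-a) a).indicator (fun _ => (1 : ℝ)) x ∧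
      (Icc (-a) a).indicator (fun _ => (1 : ℝ)) x ≤ 1 := by
    intro x
    by_cases h : x ∈ Icc (-a) a <;> simp [h]
  have hdot : Measurable (fun y : Fin (m + 1) → ℝ => w ⬝ᵥ y) := (continuous_dot w).measurable
  have h := dens_integral l w hl (F := fun x : ℝ => (Icc (-a) a).indicator (fun _ => (1 : ℝ)) x)
    hmF (fun x => (hbd x).1) (by
      intro x
      by_cases h : |x| ≤ a
      · rw [indicator_of_mem, indicator_of_mem]
        · exact abs_le.1 h
        · exact ⟨by linarith [abs_nonneg x], h⟩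
      · rw [indicator_of_notMem, indicator_of_notMem]
        · intro h2; exact h (abs_le.2 h2)
        · intro h2; exact h h2.2) (by
      apply IntegrableOn.of_bound (C := 1) (by rw [volume_cube]; simp)
        ((hmF.comp hdot).aestronglyMeasurable)
      refine Filter.Eventually.of_forall fun y => ?_
      simp only [Function.comp]
      rw [Real.norm_of_nonneg (hbd _).1]
      exact (hbd _).2)
  have h2 := h.2
  have e1 : ∫ y in Metric.closedBall (0 : Fin (m + 1) → ℝ) 1,
      (Icc (-a) a).indicator (fun _ => (1 : ℝ)) (w ⬝ᵥ y) = (G w a 0).toReal := by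
    have : (fun y : Fin (m + 1) → ℝ => (Icc (-a) a).indicator (fun _ => (1 : ℝ)) (w ⬝ᵥ y)) =
        ((fun y : Fin (m + 1) → ℝ => w ⬝ᵥ y) ⁻¹' (Icc (-a) a)).indicator 1 := by
      ext y; rfl
    rw [this, integral_indicator_one (hdot measurableSet_Icc), measureReal_def,
      Measure.restrict_apply (hdot measurableSet_Icc), G_eq]
    congr 2
    ext y
    simp only [slab, mem_inter_iff, mem_preimage, Set.mem_ofPred_eq, zero_add, abs_le, mem_Icc]
    tauto
  have e2 : ∫ τ in Ioi (0 : ℝ), (Icc (-a) a).indicator (fun _ => (1 : ℝ)) τ * dens l w τ =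
      ∫ τ in Ioc (0 : ℝ) a, dens l w τ := by
    have hc : (fun τ : ℝ => (Icc (-a) a).indicator (fun _ => (1 : ℝ)) τ * dens l w τ) =
        (Icc (-a) a).indicator (dens l w) := by
      ext τ
      by_cases h : τ ∈ Icc (-a) a
      · rw [indicator_of_mem h, indicator_of_mem h, one_mul]
      · rw [indicator_of_notMem h, indicator_of_notMem h, zero_mul]
    rw [hc, setIntegral_indicator measurableSet_Icc]
    congr 2
    ext τ
    simp only [mem_inter_iff, mem_Ioi, mem_Icc, mem_Ioc]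
    constructor
    · rintro ⟨h1, h2, h3⟩; exact ⟨h1, h3⟩
    · rintro ⟨h1, h2⟩; exact ⟨h1, by linarith, h2⟩
  rw [e1, e2] at h2
  rw [h2]
  field_simp

end Helper58.Cube
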