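import Pool.Agent.Helper58.Cube.Lower

/-! The perimeter of central sections of the cube, as it is used in the final statement. -/

namespace Helper58.Cube

open MeasureTheory Set
open scoped ENNReal

/-- The hyperplane `u^⊥` of Euclidean `n`-space. -/
def hyperplane {n : ℕ} (u : EuclideanSpace ℝ (Fin n)) : Set (EuclideanSpace ℝ (Fin n)) :=
  {x | ∑ i, u i * x i = 0}

/-- The cube `[-1,1]^n`. -/
def cube (n : ℕ) : Set (EuclideanSpace ℝ (Fin n)) :=
  {x | ∀ i, |x i| ≤ 1}

/-- The boundary of `K` relative to `H`: the frontier of `K ∩ H` in the subspace topology of `H`,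
regarded as a set in the ambient space. -/
def relBoundary {X : Type*} [TopologicalSpace X] (H K : Set X) : Set X :=
  Subtype.val '' frontier {x : H | x.val ∈ K}

/-- The perimeter `P(u)` of the central section `u^⊥ ∩ [-1,1]^n`: the `(n-2)`-dimensional Hausdorff
measure (normalised to agree with Lebesgue measure) of its boundary relative to `u^⊥`. -/
noncomputable def sectionPerimeter {n : ℕ} (u : EuclideanSpace ℝ (Fin n)) : ℝ≥0∞ :=
  μHE[n - 2] (relBoundary (hyperplane u) (cube n))

theorem hyperplane_eq {n : ℕ} (u : EuclideanSpace ℝ (Fin n)) :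
    hyperplane u = (((ℝ ∙ u)ᗮ : Submodule ℝ (EuclideanSpace ℝ (Fin n))) :
      Set (EuclideanSpace ℝ (Fin n))) := by
  ext x
  rw [SetLike.mem_coe, Submodule.mem_orthogonal_singleton_iff_inner_right, PiLp.inner_apply]
  simp [hyperplane, mul_comm]

theorem sectionPerimeter_eq {m : ℕ} (u : EuclideanSpace ℝ (Fin (m + 2))) :
    sectionPerimeter u = perimeter u := by
  rw [Geom.perimeter_eq, sectionPerimeter, hyperplane_eq]
  rfl

end Helper58.Cube
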