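import Pool.Agent.Helper58.Cube.Moments

/-! The second moment of `w·y`, positivity of the density inside the support. -/

namespace Helper58.Cube

open MeasureTheory Set
open scoped ENNReal

variable {m : ℕ}

theorem integral_ins (i : Fin (m + 1)) {F : (Fin (m + 1) → ℝ) → ℝ} (hF : Continuous F) :
    ∫ y in Metric.closedBall (0 : Fin (m + 1) → ℝ) 1, F y =
      ∫ t in (-1 : ℝ)..1, ∫ z in Metric.closedBall (0 : Fin m → ℝ) 1, F (ins i t z) := by
  have h := (volume_preserving_piFinSuccAbove (fun _ : Fin (m + 1) => ℝ) i).symm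
  have hpre : (MeasurableEquiv.piFinSuccAbove (fun _ : Fin (m + 1) => ℝ) i).symm ⁻¹'
      (Metric.closedBall (0 : Fin (m + 1) → ℝ) 1) =
      Icc (-1 : ℝ) 1 ×ˢ Metric.closedBall (0 : Fin m → ℝ) 1 := by
    ext p
    have := norm_ins_le i p.1 p.2 (zero_le_one)
    simp only [mem_preimage, Metric.mem_closedBall, dist_zero_right, mem_prod, mem_Icc]
    rw [← abs_le]
    exact this
  have hcont : Continuous (fun p : ℝ × (Fin m → ℝ) => F (ins i p.1 p.2)) := by
    apply hF.comp
    unfold ins
    fun_prop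
  rw [← h.setIntegral_preimage_emb (MeasurableEquiv.measurableEmbedding _), hpre,
    Measure.volume_eq_prod]
  have h2 := setIntegral_prod (μ := (volume : Measure ℝ)) (ν := (volume : Measure (Fin m → ℝ)))
    (s := Icc (-1 : ℝ) 1) (t := Metric.closedBall (0 : Fin m → ℝ) 1)
    (fun p : ℝ × (Fin m → ℝ) => F (ins i p.1 p.2)) (by
      apply hcont.continuousOn.integrableOn_compact
      exact isCompact_Icc.prod (isCompact_closedBall _ _))
  rw [intervalIntegral.integral_of_le (by norm_num), ← integral_Icc_eq_integral_Ioc, ← h2]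
  rfl

theorem first_moment (w : Fin m → ℝ) :
    ∫ y in Metric.closedBall (0 : Fin m → ℝ) 1, w ⬝ᵥ y = 0 := by
  have h : ∫ y in Metric.closedBall (0 : Fin m → ℝ) 1, w ⬝ᵥ y =
      ∫ y in Metric.closedBall (0 : Fin m → ℝ) 1, -(w ⬝ᵥ y) := by
    rw [← integral_indicator Metric.isClosed_closedBall.measurableSet,
      ← integral_indicator Metric.isClosed_closedBall.measurableSet, ← integral_neg_eq_self]
    congr 1
    ext y
    by_cases hy : y ∈ Metric.closedBall (0 : Fin m → ℝ) 1
    · rw [indicator_of_mem hy, indicator_of_mem, dotProduct_neg]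
      simpa using hy
    · rw [indicator_of_notMem hy, indicator_of_notMem]
      simpa using hy
  rw [integral_neg] at h
  linarith

theorem second_moment : ∀ {m : ℕ} (w : Fin m → ℝ),
    ∫ y in Metric.closedBall (0 : Fin m → ℝ) 1, (w ⬝ᵥ y) ^ 2 = 2 ^ m * (∑ j, w j ^ 2) / 3 := by
  intro m
  induction m with
  | zero =>
    intro w
    simp [dotProduct]
  | succ m ih =>
    intro w
    have hc : Continuous (fun y : Fin (m + 1) → ℝ => (w ⬝ᵥ y) ^ 2) := (continuous_dot w).pow 2
    have hc1 : Continuous (fun y : Fin m → ℝ => (del 0 w ⬝ᵥ y)) := continuous_dot _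
    rw [integral_ins 0 hc]
    have h1 : ∀ t : ℝ, ∫ z in Metric.closedBall (0 : Fin m → ℝ) 1, (w ⬝ᵥ ins 0 t z) ^ 2 =
        2 ^ m * (w 0) ^ 2 * t ^ 2 + 2 ^ m * (∑ j, (del 0 w) j ^ 2) / 3 := by
      intro t
      have hI : ∀ g : (Fin m → ℝ) → ℝ, Continuous g →
          IntegrableOn g (Metric.closedBall (0 : Fin m → ℝ) 1) := fun g hg =>
        hg.continuousOn.integrableOn_compact (isCompact_closedBall _ _)
      have : ∀ z : Fin m → ℝ, (w ⬝ᵥ ins 0 t z) ^ 2 =
          (w 0 * t) ^ 2 + 2 * (w 0 * t) * (del 0 w ⬝ᵥ z) + (del 0 w ⬝ᵥ z) ^ 2 := by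
        intro z; rw [dot_ins]; ring
      simp_rw [this]
      have c1 : IntegrableOn (fun z : Fin m → ℝ => (w 0 * t) ^ 2 + 2 * (w 0 * t) * (del 0 w ⬝ᵥ z))
          (Metric.closedBall 0 1) := hI _ (by fun_prop)
      have c2 : IntegrableOn (fun z : Fin m → ℝ => (del 0 w ⬝ᵥ z) ^ 2)
          (Metric.closedBall 0 1) := hI _ (by fun_prop)
      have c3 : IntegrableOn (fun _ : Fin m → ℝ => (w 0 * t) ^ 2)
          (Metric.closedBall 0 1) := hI _ (by fun_prop)
      have c4 : IntegrableOn (fun z : Fin m → ℝ => 2 * (w 0 * t) * (del 0 w ⬝ᵥ z))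
          (Metric.closedBall 0 1) := hI _ (by fun_prop)
      rw [integral_add c1 c2, integral_add c3 c4,
        integral_const_mul, first_moment, ih]
      simp only [integral_const, MeasurableSet.univ, measureReal_restrict_apply, univ_inter,
        smul_eq_mul]
      rw [measureReal_def, volume_cube]
      simp only [ENNReal.toReal_pow, ENNReal.toReal_ofNat]
      ring
    simp_rw [h1]
    rw [intervalIntegral.integral_add (by apply Continuous.intervalIntegrable; fun_prop) (by simp),
      intervalIntegral.integral_const_mul, integral_pow, intervalIntegral.integral_const,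
      Fin.sum_univ_succ]
    simp only [del_apply, Fin.zero_succAbove, smul_eq_mul]
    norm_num
    ring

theorem dens_second (l : Fin (m + 1)) (w : Fin (m + 1) → ℝ) (hl : w l ≠ 0) :
    IntegrableOn (fun τ => τ ^ 2 * dens l w τ) (Ioi 0) ∧
      ∫ τ in Ioi (0 : ℝ), τ ^ 2 * dens l w τ = (∑ j, w j ^ 2) / 3 := by
  have h := dens_integral l w hl (F := fun x => x ^ 2) (by fun_prop) (fun x => sq_nonneg x)
    (fun x => sq_abs x) (((continuous_dot w).pow 2).continuousOn.integrableOn_compact
      (isCompact_closedBall _ _))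
  refine ⟨h.1, ?_⟩
  have h2 := h.2
  rw [second_moment] at h2
  have h3 : (2 : ℝ) ^ (m + 1) ≠ 0 := by positivity
  apply mul_left_cancel₀ h3
  rw [← h2]; ring

/-- The density is positive inside the support. -/
theorem dens_pos (l : Fin (m + 1)) (w : Fin (m + 1) → ℝ) (hl : w l ≠ 0) {t : ℝ} (ht0 : 0 ≤ t)
    (ht : t < ∑ j, |w j|) : 0 < dens l w t := by
  have hb : 0 < |w l| := abs_pos.2 hl
  unfold dens
  have hG : 0 < (G (del l w) |w l| t).toReal := by
    apply ENNReal.toReal_pos _ (G_ne_top _ _ _)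
    rw [G_eq]
    apply ne_of_gt
    have hopen : IsOpen {z : Fin m → ℝ | z ∈ Metric.ball 0 1 ∧ |t + del l w ⬝ᵥ z| < |w l|} := by
      apply IsOpen.inter Metric.isOpen_ball
      exact isOpen_lt ((continuous_const.add (continuous_dot _)).abs) continuous_const
    have hsub : {z : Fin m → ℝ | z ∈ Metric.ball 0 1 ∧ |t + del l w ⬝ᵥ z| < |w l|} ⊆
        slab (del l w) |w l| t := by
      rintro z ⟨h1, h2⟩
      exact ⟨Metric.ball_subset_closedBall h1, h2.le⟩
    refine lt_of_lt_of_le (hopen.measure_pos _ ?_) (measure_mono hsub)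
    have hsum : ∑ j, |w j| = |w l| + ∑ j, |del l w j| := by
      rw [Fin.sum_univ_succAbove _ l]; rfl
    set W := ∑ j, |w j| with hW
    have hW0 : 0 < W := lt_of_le_of_lt ht0 ht
    set θ := t / W with hθ
    have hθ0 : 0 ≤ θ := div_nonneg ht0 hW0.le
    have hθ1 : θ < 1 := (div_lt_one hW0).2 ht
    have htθ : t = θ * W := by rw [hθ]; field_simp
    refine ⟨fun j => -θ * (SignType.sign (del l w j) : ℝ), ?_, ?_⟩
    · rw [Metric.mem_ball, dist_zero_right, pi_norm_lt_iff one_pos]
      intro j
      rw [Real.norm_eq_abs, abs_mul, abs_neg, abs_of_nonneg hθ0]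
      have : |(SignType.sign (del l w j) : ℝ)| ≤ 1 := by
        rcases lt_trichotomy (del l w j) 0 with h | h | h
        · rw [sign_neg h]; simp
        · rw [h]; simp
        · rw [sign_pos h]; simp
      nlinarith
    · have hdot : del l w ⬝ᵥ (fun j => -θ * (SignType.sign (del l w j) : ℝ)) =
          -θ * ∑ j, |del l w j| := by
        simp only [dotProduct, Finset.mul_sum]
        apply Finset.sum_congr rfl
        intro j _
        rw [← sign_mul_self (del l w j)]
        ring
      rw [hdot, htθ, hsum]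
      rw [show θ * (|w l| + ∑ j, |del l w j|) + -θ * ∑ j, |del l w j| = θ * |w l| by ring,
        abs_mul, abs_abs, abs_of_nonneg hθ0]
      nlinarith
  positivity

end Helper58.Cube
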