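import Pool.Agent.Helper58.Cube.Fubini

/-! Unimodality of the slab function. -/

namespace Helper58.Cube

open MeasureTheory Set
open scoped ENNReal

variable {m : ℕ}

theorem intervalIntegrable_of_bdd {g : ℝ → ℝ} (hg : Measurable g) {C : ℝ}
    (hb : ∀ x, 0 ≤ g x ∧ g x ≤ C) (a b : ℝ) : IntervalIntegrable g volume a b := by
  refine (intervalIntegrable_const (c := C)).mono_fun hg.aestronglyMeasurable ?_
  refine Filter.Eventually.of_forall fun x => ?_
  show ‖g x‖ ≤ ‖C‖
  rw [Real.norm_of_nonneg (hb x).1]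
  exact (hb x).2.trans (Real.le_norm_self _)

/-- Averaging over a symmetric interval preserves being even and nonincreasing in `|x|`. -/
theorem avg_mono {g : ℝ → ℝ} (hg : Measurable g) {C : ℝ} (hb : ∀ x, 0 ≤ g x ∧ g x ≤ C)
    (hsu : ∀ x y, |x| ≤ |y| → g y ≤ g x) (c : ℝ) :
    ∀ x y, |x| ≤ |y| → (∫ t in (-1 : ℝ)..1, g (y + c * t)) ≤ ∫ t in (-1 : ℝ)..1, g (x + c * t) := by
  have heven : ∀ z, g (-z) = g z := fun z =>
    le_antisymm (hsu _ _ (by simp)) (hsu _ _ (by simp))
  -- main case
  have main : ∀ c : ℝ, 0 < c → ∀ x y, 0 ≤ x → x ≤ y →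
      (∫ t in (-1 : ℝ)..1, g (y + c * t)) ≤ ∫ t in (-1 : ℝ)..1, g (x + c * t) := by
    intro c hc x y hx hxy
    rw [intervalIntegral.integral_comp_add_mul g hc.ne', intervalIntegral.integral_comp_add_mul g hc.ne']
    simp only [smul_eq_mul]
    apply mul_le_mul_of_nonneg_left _ (inv_nonneg.2 hc.le)
    have hI := intervalIntegrable_of_bdd hg hb
    have h1 : (∫ z in (y + c * -1)..(y + c * 1), g z) - (∫ z in (x + c * -1)..(x + c * 1), g z)
        = (∫ z in (x + c)..(y + c), g z) - ∫ z in (x - c)..(y - c), g z := by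
      have e1 := intervalIntegral.integral_add_adjacent_intervals (hI (x - c) (y - c)) (hI (y - c) (y + c))
      have e2 := intervalIntegral.integral_add_adjacent_intervals (hI (x - c) (x + c)) (hI (x + c) (y + c))
      rw [show y + c * -1 = y - c by ring, show y + c * 1 = y + c by ring,
        show x + c * -1 = x - c by ring, show x + c * 1 = x + c by ring]
      linarith
    have h2 : (∫ z in (x + c)..(y + c), g z) = ∫ z in (x - c)..(y - c), g (z + 2 * c) := by
      rw [intervalIntegral.integral_comp_add_right]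
      congr 1 <;> ring
    have h3 : (∫ z in (x - c)..(y - c), g (z + 2 * c)) ≤ ∫ z in (x - c)..(y - c), g z := by
      apply intervalIntegral.integral_mono_on (by linarith)
      · exact intervalIntegrable_of_bdd (hg.comp (measurable_id.add_const _))
          (fun x => hb (x + 2 * c)) _ _
      · exact hI _ _
      · intro z hz
        apply hsu
        rw [abs_le, abs_of_nonneg (by linarith [hz.1] : 0 ≤ z + 2 * c)]
        constructor <;> linarith [hz.1]
    linarith
  have hflip : ∀ c x : ℝ, (∫ t in (-1 : ℝ)..1, g (x + (-c) * t)) = ∫ t in (-1 : ℝ)..1, g (x + c * t) := by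
    intro c x
    have := intervalIntegral.integral_comp_neg (a := (-1 : ℝ)) (b := 1) (fun t => g (x + c * t))
    simp only [neg_neg, mul_neg] at this
    rw [← this]
    congr 1; ext t; ring_nf
  have hevenI : ∀ c x : ℝ, (∫ t in (-1 : ℝ)..1, g (-x + c * t)) = ∫ t in (-1 : ℝ)..1, g (x + c * t) := by
    intro c x
    rw [← hflip c x]
    congr 1; ext t
    rw [← heven]; ring_nf
  have habs : ∀ c x : ℝ, (∫ t in (-1 : ℝ)..1, g (|x| + |c| * t)) = ∫ t in (-1 : ℝ)..1, g (x + c * t) := by
    intro c x
    rcases abs_choice x with h | h <;> rcases abs_choice c with h' | h' <;> rw [h, h']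
    · exact hflip _ _
    · exact hevenI _ _
    · rw [hflip, hevenI]
  intro x y hxy
  rcases eq_or_ne c 0 with rfl | hc
  · simp only [zero_mul, add_zero]
    apply intervalIntegral.integral_mono_on (by norm_num) (by simp) (by simp)
    intro _ _
    exact hsu _ _ hxy
  · rw [← habs c x, ← habs c y]
    exact main _ (abs_pos.2 hc) _ _ (abs_nonneg _) hxy

theorem G_toReal_bdd (v : Fin m → ℝ) (b τ : ℝ) : 0 ≤ (G v b τ).toReal ∧ (G v b τ).toReal ≤ 2 ^ m := by
  refine ⟨ENNReal.toReal_nonneg, ?_⟩
  have := ENNReal.toReal_mono (by simp) (G_le v b τ)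
  simpa using this

theorem G_rec_real (i : Fin (m + 1)) (w : Fin (m + 1) → ℝ) (b τ : ℝ) :
    (G w b τ).toReal = ∫ t in (-1 : ℝ)..1, (G (del i w) b (τ + w i * t)).toReal := by
  rw [G_rec i, intervalIntegral.integral_of_le (by norm_num), ← integral_Icc_eq_integral_Ioc,
    integral_toReal]
  · exact ((measurable_G (del i w) b).comp (by fun_prop)).aemeasurable
  · exact Filter.Eventually.of_forall fun t => lt_top_iff_ne_top.2 (G_ne_top _ _ _)

/-- The slab function is even and nonincreasing in `|τ|`. -/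
theorem G_mono : ∀ {m : ℕ} (v : Fin m → ℝ) (b x y : ℝ), |x| ≤ |y| →
    (G v b y).toReal ≤ (G v b x).toReal := by
  intro m
  induction m with
  | zero =>
    intro v b x y hxy
    apply ENNReal.toReal_mono (G_ne_top _ _ _)
    rw [G_eq, G_eq]
    apply measure_mono
    intro z hz
    refine ⟨hz.1, ?_⟩
    have h2 := hz.2
    simp only [dotProduct, Finset.univ_eq_empty, Finset.sum_empty, add_zero] at h2 ⊢
    exact hxy.trans h2
  | succ m ih =>
    intro v b x y hxy
    rw [G_rec_real 0, G_rec_real 0]
    exact avg_mono (g := fun τ => (G (del 0 v) b τ).toReal)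
      (measurable_G _ _).ennreal_toReal (G_toReal_bdd _ _) (ih _ _) (v 0) x y hxy

end Helper58.Cube
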